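import Pool.Agent.helper90.IV.Spec

set_option autoImplicit false

open scoped BigOperators

namespace Pool.Agent.helper90.IV

open Pool.Agent.helper23.TH Pool.Agent.KS Pool.Agent.IV

noncomputable section

open Classical

theorem SEL_one (τ : Type) (P : ℕ) (tok : Fin P → Finset τ) (X : Finset τ)
    (hd : ∀ j j', j ≠ j' → Disjoint (tok j) (tok j')) (hX : X.card < P) : ∃ j, Disjoint (tok j) X := by
  by_contra hcon
  push Not at hcon
  have h1 : ∀ j, ∃ x, x ∈ tok j ∧ x ∈ X := by
    intro j
    have := hcon j
    rw [Finset.not_disjoint_iff] at this
    exact this
  choose f hf hfX using h1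
  have hinj : Function.Injective f := by
    intro a b hab
    by_contra hne
    exact (Finset.disjoint_left.1 (hd a b hne) (hf a)) (hab ▸ hf b)
  have h2 : (Finset.univ.image f).card = P := by
    rw [Finset.card_image_of_injective _ hinj, Finset.card_univ, Fintype.card_fin]
  have h3 : Finset.univ.image f ⊆ X := by
    intro x hx
    obtain ⟨j, -, rfl⟩ := Finset.mem_image.1 hx
    exact hfX j
  have := Finset.card_le_card h3
  omega

theorem SEL : SEL_stmt := by
  intro τ m P b t tok Fb ht hd hb hP
  have key : ∀ k : ℕ, k ≤ m → ∃ J : Fin m → Fin P, (∀ i : Fin m, i.1 < k → Disjoint (tok i (J i)) (Fb i)) ∧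
      ∀ i i' : Fin m, i.1 < k → i'.1 < k → i ≠ i' → Disjoint (tok i (J i)) (tok i' (J i')) := by
    intro k
    induction k with
    | zero =>
      intro _
      refine ⟨fun _ => ⟨0, by omega⟩, fun i hi => absurd hi (by omega), fun i i' hi => absurd hi (by omega)⟩
    | succ k ih =>
      intro hk
      obtain ⟨J, h1, h2⟩ := ih (by omega)
      set i₀ : Fin m := ⟨k, by omega⟩ with hi₀
      set X : Finset τ := Fb i₀ ∪ (Finset.univ : Finset (Fin m)).biUnion
        (fun i => if i.1 < k then tok i (J i) else ∅) with hX
      have hXc : X.card ≤ b + m * t := by
        refine (Finset.card_union_le _ _).trans (Nat.add_le_add (hb _) ?_)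
        refine Finset.card_biUnion_le.trans ?_
        refine (Finset.sum_le_sum (g := fun _ => t) ?_).trans ?_
        · intro i _
          by_cases h : i.1 < k
          · simp only [h, if_true]; exact ht _ _
          · simp only [h, if_false]; simp
        · simp
      obtain ⟨j, hj⟩ := SEL_one τ P (tok i₀) X (hd i₀) (by omega)
      rw [hX, Finset.disjoint_union_right] at hj
      obtain ⟨hj1, hj2⟩ := hj
      rw [Finset.disjoint_biUnion_right] at hj2
      refine ⟨Function.update J i₀ j, ?_, ?_⟩
      · intro i hi
        by_cases hii : i = i₀
        · subst hii; rw [Function.update_self]; exact hj1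
        · rw [Function.update_of_ne hii]
          refine h1 i ?_
          have : i.1 ≠ k := fun h => hii (Fin.ext h)
          omega
      · intro i i' hi hi' hne
        by_cases hii : i = i₀
        · subst hii
          have hii' : i' ≠ i₀ := fun h => hne h.symm
          rw [Function.update_self, Function.update_of_ne hii']
          have hlt : i'.1 < k := by
            have : i'.1 ≠ k := fun h => hii' (Fin.ext h)
            omega
          have := hj2 i' (Finset.mem_univ _)
          simpa only [hlt, if_true] using this
        · rw [Function.update_of_ne hii]
          have hlt : i.1 < k := by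
            have : i.1 ≠ k := fun h => hii (Fin.ext h)
            omega
          by_cases hii' : i' = i₀
          · subst hii'
            rw [Function.update_self]
            have := hj2 i (Finset.mem_univ _)
            simp only [hlt, if_true] at this
            exact this.symm
          · rw [Function.update_of_ne hii']
            have hlt' : i'.1 < k := by
              have : i'.1 ≠ k := fun h => hii' (Fin.ext h)
              omega
            exact h2 i i' hlt hlt' hne
  obtain ⟨J, h1, h2⟩ := key m le_rfl
  exact ⟨J, fun i => h1 i i.2, fun i i' => h2 i i' i.2 i'.2⟩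

end

end Pool.Agent.helper90.IV
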