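import Pool.Agent.helper90.IV.Defs
import Pool.Agent.helper90.KS.Spec

/-!
# MP_26dbae_co: all rational exponents `1 < r ≤ 8/7`: statements of the modules

The proof on paper is /team-store/MP_26dbae_IV.md. Notation in the comments: `n = #V`, `x = 1/ρ`,
`Δ = κ d`. Any statement of this file, of `Pool/Agent/helper90/KS/Spec.lean` or of
`Pool/Agent/helper23/TH/Spec.lean` may be used as a hypothesis of a module (no circles).
-/

set_option autoImplicit false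

open scoped BigOperators

namespace Pool.Agent.IV

open Pool.Agent.helper23.TH Pool.Agent.KS

noncomputable section

open Classical

/-! ## A. Counting homomorphisms -/

/-- HLB. Number of homomorphisms, lower bound: the inner part is a tree: induction over the inner vertices in
the order of `rk` (count the maps on a set `S` of inner vertices closed under `par`), every live slot has at
least `d` values for given `x`, the ghosts have one value. (`card I ≥ 1` by `T.root`.) -/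
def HLB_stmt : Prop := ∀ (I : Type) [Fintype I] (T : Tr I) (V : Type) [Fintype V] (A : V → V → Prop)
  (d : ℝ) (gh : T.R → Option I), (∀ a b, A a b → A b a) → 0 ≤ d → (∀ v, d ≤ deg A v) → GV T gh →
  (Fintype.card V : ℝ) * d ^ (Fintype.card I - 1 + nl T gh) ≤ (Hm T A gh).card

/-- TE. Homomorphisms with prescribed values on a nonempty set `Z` of live vertices. Induction on the number of
live vertices not in `Z`. If there are none the homomorphism is determined. Otherwise there are adjacent live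
`t ∈ Z`, `t' ∉ Z` (if every live slot is in `Z` iff its owner is, then an inner edge has this property: otherwise
membership of inner vertices in `Z` is constant along `par`, so the same for all by `T.root` and induction on
`rk`). Sum over the at most `Δ` values at `t'`. -/
def TE_stmt : Prop := ∀ (I : Type) [Fintype I] (T : Tr I) (V : Type) [Fintype V] (A : V → V → Prop)
  (Δ : ℝ) (gh : T.R → Option I), (∀ a b, A a b → A b a) → 0 < Δ → (∀ v, (deg A v : ℝ) ≤ Δ) →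
  ∀ (Z : Finset (I ⊕ T.R)) (g : I ⊕ T.R → V), Z.Nonempty → (∀ t ∈ Z, lvv T gh t) →
  (((Hm T A gh).filter fun f => ∀ t ∈ Z, Sum.elim f.1 f.2 t = g t).card : ℝ) * Δ ^ Z.card ≤
    Δ ^ (Fintype.card I + nl T gh)

/-- the base of a homomorphism: values on `W` and at the slots -/
def bs {I : Type} {T : Tr I} {V : Type} (W : Finset I) (f : (I → V) × (T.R → V)) :
    ({w // w ∈ W} → V) × (T.R → V) := (fun w => f.1 w.1, f.2)

/-- number of inner edges inside `W` plus number of live slots with owner in `W` -/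
def eB {I : Type} [Fintype I] (T : Tr I) (gh : T.R → Option I) (W : Finset I) : ℕ :=
  (Finset.univ.filter fun e : I × I => T.par e.1 = some e.2 ∧ e.1 ∈ W ∧ e.2 ∈ W).card +
    (Finset.univ.filter fun r : T.R => gh r = none ∧ r.1 ∈ W).card

/-- BC. Number of bases: induction over the elements of `W` in the order of `rk`: `w ∈ W` has at most `Δ` values if
`par w ∈ W`, otherwise at most `n`; live slots with owner in `W`: at most `Δ` values, other live slots `n`;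
ghosts are determined (their value is `x w`, `w ∈ W`). So at most `n^(#W + nl - eB) Δ^eB`, written without
subtraction. -/
def BC_stmt : Prop := ∀ (I : Type) [Fintype I] (T : Tr I) (V : Type) [Fintype V] (A : V → V → Prop)
  (Δ : ℝ) (gh : T.R → Option I) (W : Finset I), (∀ a b, A a b → A b a) → 0 < Δ →
  (∀ v, (deg A v : ℝ) ≤ Δ) → (∀ r w, gh r = some w → w ∈ W) →
  (((Hm T A gh).image (bs W)).card : ℝ) * (Fintype.card V : ℝ) ^ eB T gh W ≤
    (Fintype.card V : ℝ) ^ (W.card + nl T gh) * Δ ^ eB T gh W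

/-- EID. Number of edges: `card I - 1` inner edges in all (`T.root`); the inner edges between `W` and its
complement correspond to the ghosts with owner outside `W` (`GI.all`, `GI.once`, `GI.mem`, `GI.gv`). -/
def EID_stmt : Prop := ∀ (I : Type) [Fintype I] (T : Tr I) (s : ℕ) (gh : T.R → Option I) (W : Finset I),
  GI T s gh W → T.ew Wᶜ + eB T gh W + 1 = Fintype.card I + nl T gh

/-- BN (from HLB, BC, EID). `#bases n^#Wᶜ d^ew ≤ κ^eB n^ew (n d^(card I - 1 + nl))`, and `eB ≤ card I + card R`. -/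
def BN_stmt : Prop := ∀ (I : Type) [Fintype I] (T : Tr I) (s : ℕ) (V : Type) [Fintype V]
  (A : V → V → Prop) (d κ : ℝ) (gh : T.R → Option I) (W : Finset I), (∀ a b, A a b → A b a) → 0 < d → 1 ≤ κ →
  0 < Fintype.card V → (∀ v, d ≤ deg A v) → (∀ v, (deg A v : ℝ) ≤ κ * d) → GI T s gh W →
  (((Hm T A gh).image (bs W)).card : ℝ) * ((Fintype.card V : ℝ) ^ (Wᶜ).card * d ^ T.ew Wᶜ) ≤
    κ ^ (Fintype.card I + Fintype.card T.R) * (Fintype.card V : ℝ) ^ T.ew Wᶜ * (Hm T A gh).card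

/-- FIB (from BN). The elements of `G` in fibres with at most `C` elements are at most
`C #bases ≤ C κ^M #Hm / K₀` by `Env.h1` for `U = Wᶜ`. -/
def FIB_stmt : Prop := ∀ (I : Type) [Fintype I] (T : Tr I) (s C : ℕ) (κ η : ℝ), 1 ≤ κ → 0 < η →
  ∃ K₁ : ℝ, ∀ (V K : Type) [Fintype V] (A : V → V → Prop) (lam : Fin 2 → V → V → K) (Ch : ℕ)
  (d KE ε K₀ : ℝ), Env T s Ch A lam d κ KE ε K₀ → K₁ ≤ K₀ →
  ∀ (gh : T.R → Option I) (W : Finset I), GI T s gh W → W ≠ Finset.univ →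
  ∀ G : Finset ((I → V) × (T.R → V)), G ⊆ Hm T A gh → η * (Hm T A gh).card ≤ G.card →
  η / 2 * (Hm T A gh).card ≤ (G.filter fun f => C < (G.filter fun f' => bs W f' = bs W f).card).card

/-- NI (from HLB, TE). Two live vertices with the same value: `Z` = these two, `n` prescriptions, at most
`n Δ^(N-2)` with `N = card I + nl`. Two live edges `e ≠ e'` with the same colour for `lam l`: if they have a common
end (index), the other two ends have the same value by `PrE.prop`. Otherwise `Z` = the four ends, at most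
`n Δ n` prescriptions (the values at the ends of `e` and one end of `e'` determine the last one), at most
`n^2 Δ^(N-3)`. Compare with `#Hm ≥ n d^(N-1)`, and use `K₀ n ≤ d^2`, `d ≤ n`, so `K₀ ≤ d`. -/
def NI_stmt : Prop := ∀ (I : Type) [Fintype I] (T : Tr I) (s : ℕ) (κ δ : ℝ), 1 ≤ κ → 0 < δ →
  ∃ K₁ : ℝ, ∀ (V K : Type) [Fintype V] (A : V → V → Prop) (lam : Fin 2 → V → V → K) (Ch : ℕ)
  (d KE ε K₀ : ℝ), Env T s Ch A lam d κ KE ε K₀ → K₁ ≤ K₀ → ∀ gh : T.R → Option I, GV T gh →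
  (((Hm T A gh).filter fun f => ¬ Nice T lam gh f.1 f.2).card : ℝ) ≤ δ * (Hm T A gh).card

/-- HVY (from HLB, TE). For given `u` and `a` take `Z = {inl u} ∪ {a k}`, `s + 1` elements; the prescriptions are
the heavy stars: at most `hst Δ^(N-s-1) ≤ ε κ^N n d^(N-1)` homomorphisms. -/
def HVY_stmt : Prop := ∀ (I : Type) [Fintype I] (T : Tr I) (s : ℕ) (κ δ : ℝ), 1 ≤ κ → 0 < δ →
  ∃ ε₁ : ℝ, 0 < ε₁ ∧ ∀ (V K : Type) [Fintype V] (A : V → V → Prop) (lam : Fin 2 → V → V → K) (Ch : ℕ)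
  (d KE ε K₀ : ℝ), Env T s Ch A lam d κ KE ε K₀ → ε ≤ ε₁ → ∀ gh : T.R → Option I, GV T gh →
  (((Hm T A gh).filter fun f => ¬ NH T A s Ch gh f.1 f.2).card : ℝ) ≤ δ * (Hm T A gh).card

/-- EB. `Σ c(w,a)^q c(v,b)^q'` over the edges `(a, b)`, `a ≠ w`, `b ≠ v`, with the colour of `(w, v)`, `q + q' ≥ s`:
with `u = c(w,a)/Δ`, `u' = c(v,b)/Δ` in `[0,1]`: `u^q u'^q' ≤ max(u,u')^(q+q') ≤ u^s + u'^s`; `a` determines `b` and
`b` determines `a` (`PrE.prop`), `Env.ext`, `d ≤ Δ`. -/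
def EB_stmt : Prop := ∀ (V K : Type) [Fintype V] (A : V → V → Prop) (lam : Fin 2 → V → V → K)
  (s q q' : ℕ) (d κ KE : ℝ), PrE A lam → 0 < d → 1 ≤ κ → 0 ≤ KE → s ≤ q + q' →
  (∀ v, (deg A v : ℝ) ≤ κ * d) →
  (∀ w, ∑ w' ∈ Finset.univ.erase w, (cd A w w' : ℝ) ^ s ≤ KE * d ^ s) →
  ∀ (l : Fin 2) (w v : V), A w v →
  ∑ p ∈ Finset.univ.filter (fun p : V × V => A p.1 p.2 ∧ p.1 ≠ w ∧ p.2 ≠ v ∧ lam l p.1 p.2 = lam l w v),
    (cd A w p.1 : ℝ) ^ q * (cd A v p.2 : ℝ) ^ q' ≤ 2 * KE * (κ * d) ^ (q + q')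

/-- NC (from HLB, TE, EB). For an inner edge `(i, j)` outside `W`, `par i = some j`, and `l`: the sum over `f ∈ Hm` of
`#CFs` is the sum over `(w, v)`, `A w v`, over the `(a, b)` of EB and over `y` on the slots of `i` and `j` (values
in `N(w) ∩ N(a)`, `N(v) ∩ N(b)`) of the number of `f` with these values: TE for `Z` = `inl i`, `inl j`, and for every
slot `r` of `i` or `j` the vertex `inr r` if it is live and `inl w` if `gh r = some w` (`w ∈ W`, each once), so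
`#Z = 2 + ro i + ro j`. In all at most `n Δ 2 KE Δ^(ro i + ro j) Δ^(N - 2 - ro i - ro j)`. Markov. -/
def NC_stmt : Prop := ∀ (I : Type) [Fintype I] (T : Tr I) (s : ℕ) (κ KE δ : ℝ), TOK T s → 1 ≤ κ → 0 < δ →
  ∃ P₁ : ℕ, ∀ (V K : Type) [Fintype V] (A : V → V → Prop) (lam : Fin 2 → V → V → K) (Ch : ℕ)
  (d ε K₀ : ℝ), Env T s Ch A lam d κ KE ε K₀ → ∀ (gh : T.R → Option I) (W : Finset I), GI T s gh W →
  (((Hm T A gh).filter fun f => ¬ NCF T A lam P₁ W f.1 f.2).card : ℝ) ≤ δ * (Hm T A gh).card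

/-! ## B. Blocking -/

/-- PV. Popular value. Take a family `a` of elements of `F` with pairwise disjoint tokens `tkL Bᶜ` with the
maximal number `l` of elements; `l < P`. Every `x ∈ F` has a token in common with some `a j`. (1) `x u = a j u'` with
`u ∉ B`: a value at `u`. (2) a live edge `e` touching `Bᶜ` has the colour `g` of a live edge of `a j`; there are at most
`P ((card I)^2 + 2 (card Ed)^2)` possibilities for `(j, u, u')` or `(j, l, e, e')`, one of them happens for a set `F''`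
with `#F ≤ that * #F''`. In case (2): if `e` is a slot, or one end of `e` is in `B`, then that end has the same value
for all `x ∈ F''`, so by `PrE.prop` (and `csymm`) the other end `u ∉ B` also. If `e = (i, j)` is an inner edge with both
ends outside `B ⊇ W`: let `x₀ ∈ F''`. For `x ∈ F''` with `x i ≠ x₀ i` also `x j ≠ x₀ j` and `(x i, x j)` is in
`CFs x₀ y l i j`, so `x i` has at most `P₁ + 1` values on `F''`. -/
def PV_stmt : Prop := ∀ (I : Type) [Fintype I] (T : Tr I) (P P₁ : ℕ), ∃ C : ℕ, ∀ (V K : Type) [Fintype V]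
  (A : V → V → Prop) (lam : Fin 2 → V → V → K) (gh : T.R → Option I) (W B : Finset I) (y : T.R → V)
  (F : Finset (I → V)), PrE A lam → W ⊆ B → B ≠ Finset.univ → F.Nonempty →
  (∀ x ∈ F, T.hom A x y ∧ NCF T A lam P₁ W x y) → (∀ x ∈ F, ∀ x' ∈ F, ∀ i ∈ B, x i = x' i) →
  ¬ Pk T lam gh B y P F → ∃ u, u ∉ B ∧ ∃ v, F.card ≤ C * (F.filter fun x => x u = v).card

/-- BL (from PV). Start with `B = W`, `F' = F`; as long as `Pk` does not hold replace `B` by `B ∪ {u}` and `F'` by the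
elements with `x u = v`. After `k` steps `#F ≤ C^k #F'`. If `B` becomes `univ` then `F'` has at most one element, so
`#F ≤ C^(card I)`, excluded. -/
def BL_stmt : Prop := ∀ (I : Type) [Fintype I] (T : Tr I) (P P₁ : ℕ), ∃ C : ℕ, ∀ (V K : Type) [Fintype V]
  (A : V → V → Prop) (lam : Fin 2 → V → V → K) (gh : T.R → Option I) (W : Finset I) (y : T.R → V)
  (F : Finset (I → V)), PrE A lam → W ≠ Finset.univ →
  (∀ x ∈ F, T.hom A x y ∧ NCF T A lam P₁ W x y) → (∀ x ∈ F, ∀ x' ∈ F, ∀ i ∈ W, x i = x' i) →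
  C < F.card → ∃ (B : Finset I) (F' : Finset (I → V)), W ⊆ B ∧ B ≠ Finset.univ ∧ F' ⊆ F ∧
    F.card ≤ C * F'.card ∧ (∀ x ∈ F', ∀ x' ∈ F', ∀ i ∈ B, x i = x' i) ∧ Pk T lam gh B y P F'

/-! ## C. Combination -/

/-- SEL. Greedy selection; a set with at most `b + m t` elements meets at most so many of pairwise disjoint
sets. -/
def SEL_stmt : Prop := ∀ (τ : Type) (m P b t : ℕ) (tok : Fin m → Fin P → Finset τ) (Fb : Fin m → Finset τ),
  (∀ i j, (tok i j).card ≤ t) → (∀ i j j', j ≠ j' → Disjoint (tok i j) (tok i j')) →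
  (∀ i, (Fb i).card ≤ b) → b + m * t < P →
  ∃ J : Fin m → Fin P, (∀ i, Disjoint (tok i (J i)) (Fb i)) ∧
    ∀ i i', i ≠ i' → Disjoint (tok i (J i)) (tok i' (J i'))

/-- DR. A set with at most `b` elements meets at most `b` of pairwise disjoint sets. -/
def DR_stmt : Prop := ∀ (τ : Type) (P b : ℕ) (tok : Fin (P + b) → Finset τ) (X : Finset τ),
  (∀ j j', j ≠ j' → Disjoint (tok j) (tok j')) → X.card ≤ b →
  ∃ e : Fin P → Fin (P + b), Function.Injective e ∧ ∀ j, Disjoint (tok (e j)) X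

/-- bound for the number of tokens -/
def TB {I : Type} [Fintype I] (T : Tr I) : ℕ :=
  Fintype.card I + Fintype.card T.R + 2 * Fintype.card T.Ed

/-- CMB (from SEL). Combination. `W' = W ∪ Bᶜ`. SEL with `tok i j = tkW W y (z i j)` (`z i j` the alternatives of
`a i`), `Fb i = tkF x₀ ∪ ⋃ i', tkL Bᶜ (a i')`, `t = TB`, `b = (P' + 1) TB`. Let `z i` be the chosen alternative of `a i`;
outside `W` it is `a i`, outside `W'` it is `x₀`. (1) `tkW W' (z i) ⊆ tkW W (z i) ∪ tkL Bᶜ (a i)`: an edge touching `W'` but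
not `W` has both ends (the owner, if it is a slot) outside `W`, `z i = a i` there; if it is a ghost slot `r` with
`gh r = some w` (`w ∈ W`) of `u ∉ B`, then `y r = a i w` and its colour is that of the inner edge between `u` and `w`
for `a i`, which touches `Bᶜ`. (2) `tkL Bᶜ (a i)` and `tkF x₀` are disjoint: `x₀` and `a i` agree on `B`; values and
live edges of `x₀` touching `Bᶜ` are in `tkL Bᶜ x₀`; the other values (all `x₀ b` with `b ∈ B`, all `y r`) and live edges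
are values and live edges of `a i` not touching `Bᶜ`, different from those touching `Bᶜ` by `Nice` (a ghost slot `r`
has the value `a i w`). (3) injectivity on `W'`: `W` and `W`: `Alt.inj`; `Bᶜ` and `Bᶜ`: `Nice`; `W` and `Bᶜ`: `Alt.fresh` for
`a i`. (4) colours: both edges touch `W`: `Alt.cinj`; one of them: the colour of the other is in `tkF (a i)` by (1) and
`Alt.fresh`; none: by `Nice`, replacing a ghost slot `r` by the inner edge between `r.1` and `w`; this is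
injective by `GI.once` and these inner edges touch `W`. (5) pairwise disjoint: (1), SEL, hypothesis. -/
def CMB_stmt : Prop := ∀ (I : Type) [Fintype I] (T : Tr I) (s P P' : ℕ) (V K : Type) [Fintype V]
  (A : V → V → Prop) (lam : Fin 2 → V → V → K) (gh : T.R → Option I) (W B : Finset I) (y : T.R → V)
  (x₀ : I → V) (a : Fin P' → I → V), PrE A lam → GI T s gh W → W ⊆ B → (P' + 1) * TB T + P' * TB T < P →
  (x₀, y) ∈ Hm T A gh → (∀ j, (a j, y) ∈ Hm T A gh) → (∀ j, ∀ i ∈ B, a j i = x₀ i) →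
  (∀ j, Nice T lam gh (a j) y) → (∀ j, Rich T A lam gh W P (a j) y) →
  (∀ j j', j ≠ j' → Disjoint (tkL T lam gh Bᶜ y (a j)) (tkL T lam gh Bᶜ y (a j'))) →
  (∀ j, Disjoint (tkL T lam gh Bᶜ y (a j)) (tkL T lam gh Bᶜ y x₀)) →
  Rich T A lam gh (W ∪ Bᶜ) P' x₀ y

/-- DGB. Degrees. `w ∈ W`: `dO (W ∪ Bᶜ) w ≤ dO W w` and `GI.deg`. `u ∉ B`: if `ro u + dO (W ∪ Bᶜ) u ≥ s` choose `s` different
elements among: the live slots of `u`, the `w` with `gh r = some w`, `r.1 = u` (these are neighbours of `u` in `W`),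
and the neighbours of `u` in `B \ W`. They are live neighbours of `u`, their values under `x₀` are `y r` (a slot) or
the values of `x₀ = a j` on `B`, so all `a j u` are common neighbours of these values (for a ghost `r` the value
`x₀ w = y r`). The `a j u` are different (tokens), so `cn ≥ P ≥ Ch`, which contradicts `NH`. -/
def DGB_stmt : Prop := ∀ (I : Type) [Fintype I] (T : Tr I) (s P Ch : ℕ) (V K : Type) [Fintype V]
  (A : V → V → Prop) (lam : Fin 2 → V → V → K) (gh : T.R → Option I) (W B : Finset I) (y : T.R → V)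
  (x₀ : I → V) (a : Fin P → I → V), PrE A lam → GI T s gh W → W ⊆ B → Ch ≤ P →
  (x₀, y) ∈ Hm T A gh → (∀ j, (a j, y) ∈ Hm T A gh) → (∀ j, ∀ i ∈ B, a j i = x₀ i) →
  NH T A s Ch gh x₀ y →
  (∀ j j', j ≠ j' → Disjoint (tkL T lam gh Bᶜ y (a j)) (tkL T lam gh Bᶜ y (a j'))) →
  ∀ w ∈ W ∪ Bᶜ, T.ro w + T.dO (W ∪ Bᶜ) w + 1 ≤ s

/-! ## D. The light machine -/

/-- LOC (from BL, DR, CMB, DGB). One fibre. `P > (2 P' + 1) TB`. BL with `P + Ch + TB`... precisely: let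
`P₂ = max Ch (P' + TB)`; BL for `P₂`, `P₁` gives `B`, `F'` and `a₁, a₂, ..`. For every `x₀ ∈ F'` (`x₀` agrees with the `a j` on
`B`) DR (`X = tkL Bᶜ x₀`) leaves `P'` of the `a j` and CMB gives `Rich (W ∪ Bᶜ) P'`. DGB for any `x₀ ∈ F'`. -/
def LOC_stmt : Prop := ∀ (I : Type) [Fintype I] (T : Tr I) (s Ch P' : ℕ), ∃ P : ℕ, ∀ P₁ : ℕ, ∃ C : ℕ,
  ∀ (V K : Type) [Fintype V] (A : V → V → Prop) (lam : Fin 2 → V → V → K) (gh : T.R → Option I)
  (W : Finset I) (y : T.R → V) (F : Finset (I → V)), PrE A lam → GI T s gh W → W ≠ Finset.univ →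
  (∀ x ∈ F, (x, y) ∈ Hm T A gh ∧ Nice T lam gh x y ∧ Rich T A lam gh W P x y ∧ NH T A s Ch gh x y ∧
    NCF T A lam P₁ W x y) →
  (∀ x ∈ F, ∀ x' ∈ F, ∀ i ∈ W, x i = x' i) → C < F.card →
  ∃ B : Finset I, W ⊆ B ∧ B ≠ Finset.univ ∧ (∀ w ∈ W ∪ Bᶜ, T.ro w + T.dO (W ∪ Bᶜ) w + 1 ≤ s) ∧
    F.card ≤ C * (F.filter fun x => Rich T A lam gh (W ∪ Bᶜ) P' x y).card

/-- ST1 (from LOC, FIB, HVY, NC). `P` from LOC. HVY and NC with `δ = η/4`, so `P₁`, then `C` from LOC. `G` = the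
`f ∈ Hm` which are Nice, Rich, NH and NCF, `#G ≥ (η/2) #Hm`; FIB for `η/2`, `C`: the elements of `G` in fibres with more
than `C` elements are at least `(η/4) #Hm`. For every such fibre (a set of `f` with the same `bs W f`, i.e. the same `y`
and the same `x` on `W`) LOC gives a set `B`; there are at most `2^(card I)` sets `B`, so one of them serves fibres
with together at least `(η/4) 2^(-card I) #Hm` elements. `η' = η / (4 C 2^(card I))` (`C ≥ 1`). -/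
def ST1_stmt : Prop := ∀ (I : Type) [Fintype I] (T : Tr I) (s Ch P' : ℕ) (κ KE : ℝ), TOK T s → 1 ≤ κ →
  ∃ P : ℕ, ∀ η : ℝ, 0 < η → ∃ η' ε₁ K₁ : ℝ, 0 < η' ∧ 0 < ε₁ ∧
  ∀ (V K : Type) [Fintype V] (A : V → V → Prop) (lam : Fin 2 → V → V → K) (d ε K₀ : ℝ),
  Env T s Ch A lam d κ KE ε K₀ → ε ≤ ε₁ → K₁ ≤ K₀ →
  ∀ (gh : T.R → Option I) (W : Finset I), W ≠ Finset.univ → State T s A lam W gh P η →
  ∃ B : Finset I, W ⊆ B ∧ B ≠ Finset.univ ∧ (∀ w ∈ W ∪ Bᶜ, T.ro w + T.dO (W ∪ Bᶜ) w + 1 ≤ s) ∧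
    η' * (Hm T A gh).card ≤ ((Hm T A gh).filter fun f => Nice T lam gh f.1 f.2 ∧
      Rich T A lam gh (W ∪ Bᶜ) P' f.1 f.2).card

/-- GHO. New ghosts, `W' = W ∪ Bᶜ`. Every `w ∈ W'` has at most one neighbour outside `W'` (`dO ≤ 1` as `ro w ≥ s - 2`). For
`u ∉ W'` the ghosts at `u` correspond to the neighbours of `u` in `W`, and `u` has at most `ro u` neighbours in `W'`
(`TOK.cap`), so the neighbours `w ∈ Bᶜ` of `u` can be given different slots of `u` which are not ghosts. -/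
def GHO_stmt : Prop := ∀ (I : Type) [Fintype I] (T : Tr I) (s : ℕ) (gh : T.R → Option I)
  (W B : Finset I), TOK T s → GI T s gh W → W ⊆ B →
  (∀ w ∈ W ∪ Bᶜ, T.ro w + T.dO (W ∪ Bᶜ) w + 1 ≤ s) →
  ∃ gh' : T.R → Option I, GI T s gh' (W ∪ Bᶜ) ∧ (∀ r w, gh r = some w → gh' r = some w) ∧
    ∀ r, gh r = none → gh' r ≠ none → r.1 ∉ W ∪ Bᶜ

/-- TRF. Transfer from `gh` to `gh'`. Map `(x, y)` to `(x, y')`, `y' r = x w` if `gh' r = some w` and `gh r = none`,
otherwise `y' r = y r`. It maps `Hm gh` onto `Hm gh'`, every element of `Hm gh'` has between `d^k` and `(κ d)^k` preimages,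
`k` the number of new ghosts. `Nice gh (x,y)` implies `Nice gh' (x,y')` (fewer live vertices and edges), and
`Alt gh W (x,y) z` implies `Alt gh' W (x,y') z`: for a new ghost `r` with owner `u ∉ W` one has `z u = x u`, adjacent to
`x w`; edges touching `W` are unchanged; `tkF gh' y' x ⊆ tkF gh y x`. -/
def TRF_stmt : Prop := ∀ (I : Type) [Fintype I] (T : Tr I) (s P : ℕ) (V K : Type) [Fintype V]
  (A : V → V → Prop) (lam : Fin 2 → V → V → K) (gh gh' : T.R → Option I) (W : Finset I) (d κ η : ℝ),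
  PrE A lam → 1 ≤ d → 1 ≤ κ → 0 < η → (∀ v, d ≤ deg A v) → (∀ v, (deg A v : ℝ) ≤ κ * d) → GV T gh →
  GI T s gh' W → (∀ r w, gh r = some w → gh' r = some w) → (∀ r, gh r = none → gh' r ≠ none → r.1 ∉ W) →
  η * (Hm T A gh).card ≤ ((Hm T A gh).filter fun f => Nice T lam gh f.1 f.2 ∧
    Rich T A lam gh W P f.1 f.2).card →
  State T s A lam W gh' P (η / κ ^ Fintype.card T.R)

/-- STP (from ST1, GHO, TRF). One step. -/
def STP_stmt : Prop := ∀ (I : Type) [Fintype I] (T : Tr I) (s Ch P' : ℕ) (κ KE : ℝ), TOK T s → 1 ≤ κ →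
  ∃ P : ℕ, ∀ η : ℝ, 0 < η → ∃ η' ε₁ K₁ : ℝ, 0 < η' ∧ 0 < ε₁ ∧
  ∀ (V K : Type) [Fintype V] (A : V → V → Prop) (lam : Fin 2 → V → V → K) (d ε K₀ : ℝ),
  Env T s Ch A lam d κ KE ε K₀ → ε ≤ ε₁ → K₁ ≤ K₀ →
  ∀ (gh : T.R → Option I) (W : Finset I), W ≠ Finset.univ → State T s A lam W gh P η →
  ∃ (W' : Finset I) (gh' : T.R → Option I), W ⊂ W' ∧ State T s A lam W' gh' P' η'

/-- STA (from NI). Start: `Rich ∅` holds with `z j = x`. -/
def STA_stmt : Prop := ∀ (I : Type) [Fintype I] (T : Tr I) (s P : ℕ) (κ : ℝ), 1 ≤ κ → ∃ K₁ : ℝ,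
  ∀ (V K : Type) [Fintype V] (A : V → V → Prop) (lam : Fin 2 → V → V → K) (Ch : ℕ)
  (d KE ε K₀ : ℝ), Env T s Ch A lam d κ KE ε K₀ → K₁ ≤ K₀ →
  State T s A lam ∅ (fun _ => none) P (1 / 2)

/-- EN. End: a state with `W = univ` has a Nice and Rich `(x, y)`, the `q` alternatives and `y` are a rainbow copy of
`T^q`: `y` is injective as live slots and the `w` with `gh r = some w` have different values (`Nice`, `GI.once`); the
values `z j i` are not values of `x` or `y` (`Alt.fresh`). -/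
def EN_stmt : Prop := ∀ (I : Type) [Fintype I] (T : Tr I) (s q : ℕ) (V K : Type) [Fintype V]
  (A : V → V → Prop) (lam : Fin 2 → V → V → K) (gh : T.R → Option I) (η : ℝ), PrE A lam → 0 < η →
  (Hm T A gh).Nonempty → State T s A lam Finset.univ gh q η → RB T A lam q

/-- LIT (from STP, STA, EN, HLB). Induction on `k`: there is `P` such that for all `η > 0` there are `ε₁`, `K₁` such that every
state with `#Wᶜ ≤ k` and these `P`, `η` gives `RB`. -/
def LIT_stmt : Prop := ∀ (I : Type) [Fintype I] (T : Tr I) (s Ch q : ℕ) (κ KE : ℝ), TOK T s → 1 ≤ κ →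
  ∃ ε₁ K₁ : ℝ, 0 < ε₁ ∧ ∀ (V K : Type) [Fintype V] (A : V → V → Prop) (lam : Fin 2 → V → V → K)
  (d ε K₀ : ℝ), Env T s Ch A lam d κ KE ε K₀ → ε ≤ ε₁ → K₁ ≤ K₀ → RB T A lam q

/-! ## E. Heavy stars (caterpillars) -/

/-- WP. Weighted paths. Let `S ⊆ N` maximize `Σ_{w,w' ∈ S} β w w' - (ε/2) #N #S`; the value for `S = N` is positive, so `S` is
nonempty, and leaving out `w ∈ S` shows `Σ_{w' ∈ S} β w w' ≥ (ε/4) #N` (also `#S ≥ (ε/4) #N` as `β ≤ 1`). Sum over `x` with values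
in `S` only, from the last vertex to the first. -/
def WP_stmt : Prop := ∀ (N : Type) [Fintype N] (β : N → N → ℝ) (ε : ℝ) (h : ℕ) (pj : Fin (h + 1) → ℕ),
  (∀ w w', β w w' = β w' w) → (∀ w w', 0 ≤ β w w') → (∀ w w', β w w' ≤ 1) → 0 < ε → 0 < Fintype.card N →
  ε * (Fintype.card N : ℝ) ^ 2 ≤ ∑ w, ∑ w', β w w' →
  (ε / 4) ^ (h + 1 + ∑ j, pj j) * (Fintype.card N : ℝ) ^ (h + 1) ≤
    ∑ x : Fin (h + 1) → N, (∏ j : Fin h, β (x j.castSucc) (x j.succ)) *
      ∏ j, ((∑ w', β (x j) w') / Fintype.card N) ^ pj j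

/-- number of common neighbours of the neighbours of a connector or child -/
def cnc {V : Type} [Fintype V] (A : V → V → Prop) (s : ℕ) {h : ℕ} {pj : Fin (h + 1) → ℕ}
    (xh : Fin (h + 1) → V) (y : (cat s h pj).R → V) : (Fin h ⊕ (Σ j : Fin (h + 1), Fin (pj j))) → ℕ
  | .inl j => (Finset.univ.filter fun v => A v (xh j.castSucc) ∧ A v (xh j.succ) ∧
      ∀ k : Fin (s - 2), A v (y ⟨.inr (.inl j), k⟩)).card
  | .inr c => (Finset.univ.filter fun v => A v (xh c.1) ∧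
      ∀ k : Fin (s - 1), A v (y ⟨.inr (.inr c), k⟩)).card

/-- skeletons: hubs and slots of the connectors and children in `M`, hub slots in `Y` (relation `B`), all tuples
heavy -/
def SKs {V : Type} [Fintype V] (A B : V → V → Prop) (s h : ℕ) (pj : Fin (h + 1) → ℕ) (Ch : ℕ)
    (M Y : Finset V) : Finset ((Fin (h + 1) → V) × ((cat s h pj).R → V)) :=
  Finset.univ.filter fun f => (∀ i, f.1 i ∈ M) ∧ (∀ i, ∀ k : Fin (s - 2), f.2 ⟨.inl i, k⟩ ∈ Y ∧
    B (f.1 i) (f.2 ⟨.inl i, k⟩)) ∧ (∀ u, ∀ k, f.2 ⟨.inr u, k⟩ ∈ M) ∧ ∀ u, Ch ≤ cnc A s f.1 f.2 u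

/-- number of slots of connectors and children -/
def nB (s h : ℕ) (pj : Fin (h + 1) → ℕ) : ℕ := h * (s - 2) + (∑ j, pj j) * (s - 1)

/-- SK (from WP). For `w, w' ∈ M` let `β w w'` be the fraction of the `b ∈ M^(s-2)` such that `(w, w', b)` is heavy; it is
symmetric (`cn` does not depend on the order), and `Σ β = #heavy / m^(s-2)`; the average of `β w w'` over `w'` is the fraction of
the `b ∈ M^(s-1)` with `(w, b)` heavy. For given hubs the number of the possible `y` is the product over the connectors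
of `m^(s-2) β`, over the children of `m^(s-1) α` and over the hub slots of `D₁`. -/
def SK_stmt : Prop := ∀ (s h : ℕ) (pj : Fin (h + 1) → ℕ) (ε : ℝ), 3 ≤ s → 0 < ε → ∃ c : ℝ, 0 < c ∧
  ∀ (V : Type) [Fintype V] (A B : V → V → Prop) (Ch : ℕ) (M Y : Finset V) (D₁ : ℕ), M.Nonempty →
  ε * (M.card : ℝ) ^ s ≤
    (Finset.univ.filter fun a : Fin s → V => (∀ k, a k ∈ M) ∧ Ch ≤ cn A a).card →
  (∀ x ∈ M, degY B Y x = D₁) →
  c * (M.card : ℝ) ^ (h + 1 + nB s h pj) * (D₁ : ℝ) ^ ((h + 1) * (s - 2)) ≤ (SKs A B s h pj Ch M Y).card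

/-- the possible values of the hub `i` for given slots -/
def Gh {V : Type} (B : V → V → Prop) {s h : ℕ} {pj : Fin (h + 1) → ℕ} (M : Finset V)
    (y : (cat s h pj).R → V) (i : Fin (h + 1)) : Finset V :=
  M.filter fun x => ∀ k : Fin (s - 2), B x (y ⟨.inl i, k⟩)

/-- good hub tuples for given slots -/
def GX {V : Type} [Fintype V] (A B : V → V → Prop) {s h : ℕ} {pj : Fin (h + 1) → ℕ} (Ch : ℕ) (M : Finset V)
    (y : (cat s h pj).R → V) : Finset (Fin (h + 1) → V) :=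
  Finset.univ.filter fun xh => (∀ i, xh i ∈ Gh B M y i) ∧ ∀ u, Ch ≤ cnc A s xh y u

/-- CHY. Choice of `y`. All skeletons without the condition on heavy tuples: `Σ_y ∏_i #Gh(y, i)` over the `y` with hub
slots in `Y` and the others in `M`, it is equal to `m^(h+1+nB) D₁^((h+1)(s-2))`. Those with `#Gh(y,i) < L` (for given `i`): at most
`L #Y^(s-2) m^(h+nB) D₁^(h(s-2))`. Those with two equal `y` (two given slots): both slots of connectors or children: a factor `m`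
less; two hub slots, or a hub slot and another one: a factor `D₁` less (choose the hub slot last). With
`L' #Y^(s-2) ≤ m D₁^(s-2)`, `L' ≤ D₁` (and `D₁ ≤ #Y`, so `L' ≤ m`) the bad ones are less than half of the `c m^.. D₁^..` skeletons in
`SKs`, and the average over the other `y` gives one with `#GX ≥ (c/2) ∏ #Gh`. -/
def CHY_stmt : Prop := ∀ (s h : ℕ) (pj : Fin (h + 1) → ℕ) (c L : ℝ), 3 ≤ s → 0 < c → ∃ L' : ℝ, 0 < L' ∧
  ∀ (V : Type) [Fintype V] (A B : V → V → Prop) (Ch : ℕ) (M Y : Finset V) (D₁ : ℕ),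
  M.Nonempty → (∀ x ∈ M, degY B Y x = D₁) →
  L' * (Y.card : ℝ) ^ (s - 2) ≤ M.card * (D₁ : ℝ) ^ (s - 2) → L' ≤ D₁ →
  c * (M.card : ℝ) ^ (h + 1 + nB s h pj) * (D₁ : ℝ) ^ ((h + 1) * (s - 2)) ≤ (SKs A B s h pj Ch M Y).card →
  ∃ y : (cat s h pj).R → V, Function.Injective y ∧ (∀ i, L ≤ (Gh B M y i).card) ∧
    c / 2 * ∏ i, ((Gh B M y i).card : ℝ) ≤ (GX A B Ch M y).card

/-- CPY. Choice of `q` good hub tuples one after the other. A given vertex as value of `xh i`, or a given colour of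
`lam l` at the edge `(xh i, y ⟨i, k⟩)`, or (inside one tuple, `i ≠ i'`) equality of `xh i` and `xh i'` or of the colours of
`(xh i, y ⟨i, k⟩)` and `(xh i', y ⟨i', k'⟩)`, happens for at most `∏ #Gh / L` tuples. Two slots `k ≠ k'` of the same hub give
different colours by `PrE.prop`. -/
def CPY_stmt : Prop := ∀ (s h : ℕ) (pj : Fin (h + 1) → ℕ) (q : ℕ) (c' : ℝ), 0 < c' → ∃ L : ℝ, 0 < L ∧
  ∀ (V K : Type) [Fintype V] (A B : V → V → Prop) (lam : Fin 2 → V → V → K) (M : Finset V)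
  (y : (cat s h pj).R → V) (G : Finset (Fin (h + 1) → V)), PrE A lam → (∀ a b, B a b → A a b) →
  Function.Injective y → (∀ i, L ≤ (Gh B M y i).card) → (∀ xh ∈ G, ∀ i, xh i ∈ Gh B M y i) →
  c' * ∏ i, ((Gh B M y i).card : ℝ) ≤ G.card →
  ∃ X : Fin q → Fin (h + 1) → V, (∀ j, X j ∈ G) ∧ (∀ j i j' i', X j i = X j' i' → j = j' ∧ i = i') ∧
    (∀ j i r, X j i ≠ y r) ∧ ∀ l j i (k : Fin (s - 2)) j' i' (k' : Fin (s - 2)),
      lam l (X j i) (y ⟨.inl i, k⟩) = lam l (X j' i') (y ⟨.inl i', k'⟩) → j = j' ∧ i = i' ∧ k = k'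

/-- FNY (`GR_stmt` may be used). The connectors and children greedily: `z j u` in the at least `Ch` common neighbours
of the hubs `X j` next to `u` and of the slots of `u`; a given vertex, or a given colour at the edge to a given
neighbour, excludes one choice. `Ch` is larger than the number of all these conditions. -/
def FNY_stmt : Prop := ∀ (s h : ℕ) (pj : Fin (h + 1) → ℕ) (q : ℕ), 3 ≤ s → ∃ Ch₀ : ℕ, ∀ Ch : ℕ, Ch₀ ≤ Ch →
  ∀ (V K : Type) [Fintype V] (A : V → V → Prop) (lam : Fin 2 → V → V → K)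
  (y : (cat s h pj).R → V) (X : Fin q → Fin (h + 1) → V), PrE A lam → Function.Injective y →
  (∀ j i, ∀ k : Fin (s - 2), A (X j i) (y ⟨.inl i, k⟩)) → (∀ j u, Ch ≤ cnc A s (X j) y u) →
  (∀ j i j' i', X j i = X j' i' → j = j' ∧ i = i') → (∀ j i r, X j i ≠ y r) →
  (∀ l j i (k : Fin (s - 2)) j' i' (k' : Fin (s - 2)),
      lam l (X j i) (y ⟨.inl i, k⟩) = lam l (X j' i') (y ⟨.inl i', k'⟩) → j = j' ∧ i = i' ∧ k = k') →
  RB (cat s h pj) A lam q

/-- HV (from SK, CHY, CPY, FNY). Every `x ∈ M` has exactly `D₁` neighbours in `Y` for the subrelation `B` of `A`. -/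
def HV_stmt : Prop := ∀ (s h : ℕ) (pj : Fin (h + 1) → ℕ) (q : ℕ), 3 ≤ s → ∃ Ch₀ : ℕ, ∀ Ch : ℕ, Ch₀ ≤ Ch →
  ∀ ε : ℝ, 0 < ε → ∃ L' : ℝ, 0 < L' ∧ ∀ (V K : Type) [Fintype V] (A B : V → V → Prop)
  (lam : Fin 2 → V → V → K) (M Y : Finset V) (D₁ : ℕ), PrE A lam → (∀ a b, B a b → A a b) → M.Nonempty →
  (∀ x ∈ M, degY B Y x = D₁) →
  ε * (M.card : ℝ) ^ s ≤
    (Finset.univ.filter fun a : Fin s → V => (∀ k, a k ∈ M) ∧ Ch ≤ cn A a).card →
  L' * (Y.card : ℝ) ^ (s - 2) ≤ M.card * (D₁ : ℝ) ^ (s - 2) → L' ≤ D₁ → RB (cat s h pj) A lam q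

/-- EXK (from HV; proof of helper11). `D = deg w`, `η = 2^(-s-1)/s`, `L'` from HV for `ε = 1/4`, `C₂ = 2^s L'/η`,
`L₂ = 4 L'/η^(s-2)`. `S = Σ_{a ∈ X} cd^s` is the number of the `(a, z)`, `a ∈ X`, `z ∈ (N(w) ∩ N(a))^s`; `#X k^s ≤ S ≤ #X (2k)^s`.
If `η #X k < L' D` then `S ≤ (2k)^s #X ≤ C₂ k^(s-1) D`. If `k^(s-1) < L₂ D^(s-2)` the last term is enough. Otherwise suppose that
more than half of the `(a, z)` are heavy (`cn A z ≥ Ch`). `v ∈ N(w)` is poor if it has fewer than `η #X k / D` neighbours in `X`;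
the `(a, z)` with a poor `z i` are at most `s η #X k (2k)^(s-1) ≤ S/4`. So some `a ∈ X` has at least `cd^s/4` heavy tuples in
`M^s`, `M` the elements of `N(w) ∩ N(a)` which are not poor; `m = #M ≥ k/4`. HV for `M`, `Y = X`, `D₁ = ⌈η #X k / D⌉` and `B` with exactly
`D₁` neighbours in `X` for every `x ∈ M`: `m D₁^(s-2) ≥ (k/4) (η k/D)^(s-2) #X^(s-2) ≥ L' #X^(s-2)` and `D₁ ≥ L'`. -/
def EXK_stmt : Prop := ∀ (s h : ℕ) (pj : Fin (h + 1) → ℕ) (q : ℕ), 3 ≤ s → ∃ (Ch : ℕ) (C₂ L₂ : ℝ), 0 < C₂ ∧ 0 < L₂ ∧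
  ∀ (V K : Type) [Fintype V] (A : V → V → Prop) (lam : Fin 2 → V → V → K), PrE A lam →
  ¬ RB (cat s h pj) A lam q → ∀ (w : V) (k : ℕ) (X : Finset V), 1 ≤ k →
  (∀ a ∈ X, a ≠ w ∧ k ≤ cd A w a ∧ cd A w a < 2 * k) →
  ∑ a ∈ X, (cd A w a : ℝ) ^ s ≤
    2 * ∑ a ∈ X, ((Finset.univ.filter fun z : Fin s → V => (∀ i, A w (z i) ∧ A a (z i)) ∧ cn A z < Ch).card : ℝ) +
    C₂ * ((k : ℝ) ^ (s - 1) * deg A w) +
    if (k : ℝ) ^ (s - 1) < L₂ * (deg A w : ℝ) ^ (s - 2) then 2 ^ s * (k : ℝ) ^ s * X.card else 0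

/-- EXT (from EXK). `D = deg w ≥ d`. Sum EXK over `k = 2^i ≤ D`, `X` = the `a ≠ w` with `k ≤ cd w a < 2 k`. First part: for every
`z ∈ N(w)^s` with `cn < Ch` there are fewer than `Ch` vertices `a`: `2 Ch D^s`. Second part: `Σ k^(s-1) ≤ 2 D^(s-1)`. Third part:
`k #X ≤ Σ_a cd w a ≤ D κ d ≤ κ D^2`, and `Σ k^(s-1) ≤ 2 L₂ D^(s-2)` over these `k` (`s ≥ 2`). `D ≤ κ d`. -/
def EXT_stmt : Prop := ∀ (s h : ℕ) (pj : Fin (h + 1) → ℕ) (q : ℕ) (κ : ℝ), 3 ≤ s → 1 ≤ κ → ∃ KE : ℝ, 0 ≤ KE ∧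
  ∀ (V K : Type) [Fintype V] (A : V → V → Prop) (lam : Fin 2 → V → V → K) (d : ℝ), PrE A lam → 0 < d →
  (∀ v, d ≤ deg A v) → (∀ v, (deg A v : ℝ) ≤ κ * d) → ¬ RB (cat s h pj) A lam q →
  ∀ w, ∑ w' ∈ Finset.univ.erase w, (cd A w w' : ℝ) ^ s ≤ KE * d ^ s

/-- HEA (from HV). Some `z` has at least `ε d^s` heavy tuples in `N(z)^s`, and `deg z ≤ κ d`; `M = N(z)`, `Y = univ`, `D₁ = ⌈d⌉`, `B` chosen
with exactly `D₁` neighbours. `K₁ ≤ d` follows from `K₁ n^(s-2) ≤ d^(s-1)` and `d ≤ n`. -/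
def HEA_stmt : Prop := ∀ (s h : ℕ) (pj : Fin (h + 1) → ℕ) (q : ℕ), 3 ≤ s → ∃ Ch₀ : ℕ, ∀ Ch : ℕ, Ch₀ ≤ Ch →
  ∀ κ ε : ℝ, 1 ≤ κ → 0 < ε → ∃ K₁ : ℝ, ∀ (V K : Type) [Fintype V] (A : V → V → Prop)
  (lam : Fin 2 → V → V → K) (d : ℝ), PrE A lam → 0 < Fintype.card V → 1 ≤ d → (∀ v, d ≤ deg A v) →
  (∀ v, (deg A v : ℝ) ≤ κ * d) → K₁ * (Fintype.card V : ℝ) ^ (s - 2) ≤ d ^ (s - 1) →
  ε * Fintype.card V * d ^ s ≤ hst A Ch s → RB (cat s h pj) A lam q

/-! ## F. Caterpillars -/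

/-- TC. `s ≥ 4`: hub and connector have together `2 s - 4 ≥ s` slots, hub and child `2 s - 3`. `cap`: a child in `W` has its
hub in `W` (it has `s - 1` slots, so no neighbour outside `W`), so a hub outside `W` has only connectors as neighbours in
`W`, at most `2 ≤ s - 2`; a connector has two neighbours, a child one. -/
def TC_stmt : Prop := ∀ (s h : ℕ) (pj : Fin (h + 1) → ℕ), 4 ≤ s → TOK (cat s h pj) s

/-- CB1. Let `a = Σ_{j ∈ A} pj j + #{j : both j.castSucc, j.succ ∈ A}` for the set `A` of hubs in `U`. `U` has at most `a` connectors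
and children whose hubs are all in `U` (call them full). `ew U = (s-2) #A + s #(full) + (at most (s-1) for every other
one) ≤ (s-2) #A + s #full + (s-1) #rest`; use `s - 1 ≤ ρ < s` and the hypothesis. For `U = univ` equality. -/
def CB1_stmt : Prop := ∀ (s h : ℕ) (pj : Fin (h + 1) → ℕ) (ρ : ℚ), 3 ≤ s → (s : ℚ) - 1 ≤ ρ → ρ < s →
  (∀ A : Finset (Fin (h + 1)), (s - ρ) * ((∑ j ∈ A, (pj j : ℚ)) +
    (Finset.univ.filter fun j : Fin h => j.castSucc ∈ A ∧ j.succ ∈ A).card) ≤ (ρ - (s - 2)) * A.card) →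
  (s - ρ) * ((∑ j, (pj j : ℚ)) + h) = (ρ - (s - 2)) * (h + 1) →
  (∀ U : Finset (CI h pj), ((cat s h pj).ew U : ℚ) ≤ ρ * U.card) ∧
    ((cat s h pj).ew Finset.univ : ℚ) = ρ * Fintype.card (CI h pj)

/-- CB2. `μ = (ρ - (s-2)) / (s - ρ) ≥ 1`, a rational number; `h + 1` = its denominator, `pj 0 = ⌊μ⌋`,
`pj j = ⌊μ (j+1)⌋ - ⌊μ j⌋ - 1` for `j ≥ 1` (`≥ 0` as `μ ≥ 1`). For `A` a set of hubs: by induction on `b`, for `A ⊆ {0..b-1}`:
`Σ_A pj + #cons - μ #A ≤ 0`, and `≤ - fract (μ b)` if `b - 1 ∈ A`. -/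
def CB2_stmt : Prop := ∀ μ : ℚ, 1 ≤ μ → ∃ (h : ℕ) (pj : Fin (h + 1) → ℕ),
  (∀ A : Finset (Fin (h + 1)), (∑ j ∈ A, (pj j : ℚ)) +
    (Finset.univ.filter fun j : Fin h => j.castSucc ∈ A ∧ j.succ ∈ A).card ≤ μ * A.card) ∧
  (∑ j, (pj j : ℚ)) + h = μ * (h + 1)

/-! ## G. The ordinary theorem with two colourings -/

/-- MD (from `RG2_stmt`). RG2 with `a` gives `U` with `S = Σ_{v ∈ U} dg U v ≥ C #U^(1+a)` and `dg U v #U ≤ K S`. Let `d = S / (4 #U)` and let
`U' ⊆ U` maximize `Σ_{v ∈ U'} dg U' v - 2 d #U'`; its value is at least `S / 2 > 0`, so `U'` is nonempty, and leaving out `v` shows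
`dg U' v ≥ d`. `κ = 4 K` (at least 1), `#U' ≤ #U`. -/
def MD_stmt : Prop := ∀ a : ℝ, 0 < a → a ≤ 1 → ∃ κ : ℝ, 1 ≤ κ ∧ ∀ C₂ : ℝ, 0 < C₂ → ∃ C₁ : ℝ, 0 < C₁ ∧
  ∀ (V : Type) [Fintype V] (A : V → V → Prop), (∀ u v, A u v → A v u) → 0 < Fintype.card V →
    C₁ * (Fintype.card V : ℝ) ^ (1 + a) ≤ ∑ v, (dg A Finset.univ v : ℝ) →
    ∃ (U : Finset V) (d : ℝ), U.Nonempty ∧ C₂ * (U.card : ℝ) ^ a ≤ d ∧
      ∀ v ∈ U, d ≤ dg A U v ∧ (dg A U v : ℝ) ≤ κ * d

/-- NP. Powers: from `d ≥ K n^(1-1/ρ)`, `n ≥ 1`, `K ≥ 1`: `n^u d^e ≥ K^e n^(u + e - e/ρ) ≥ K n^e` if `1 ≤ e ≤ ρ u`; `K n ≤ d^2` as `ρ ≥ 2`;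
`K n^(s-2) ≤ d^(s-1)` as `s - 1 ≤ ρ`. -/
def NP_stmt : Prop := ∀ (ρ K n d : ℝ) (s : ℕ), 2 ≤ ρ → 3 ≤ s → (s : ℝ) - 1 ≤ ρ → 1 ≤ K → 1 ≤ n →
  K * n ^ (1 - 1 / ρ) ≤ d →
  (∀ u e : ℕ, 1 ≤ e → (e : ℝ) ≤ ρ * u → K * n ^ e ≤ n ^ u * d ^ e) ∧ K * n ≤ d ^ 2 ∧
    K * n ^ (s - 2) ≤ d ^ (s - 1)

/-- OP (from MD, NP, EXT, HEA, LIT, TC). Suppose there is no rainbow copy. `Ch` from HEA, `κ` from MD with `a = 1 - 1/ρ`, `KE` from
EXT, `ε₁`, `K₁` from LIT, `K₂` from HEA for `ε₁`. On the subtype of `U` from MD: if `hst ≥ ε₁ n d^s` HEA, otherwise LIT (`Env.ext` from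
EXT). A rainbow copy for the subtype is one for `V`. -/
def OP_stmt : Prop := ∀ (s h : ℕ) (pj : Fin (h + 1) → ℕ) (ρ : ℝ) (q : ℕ), 4 ≤ s → (s : ℝ) - 1 ≤ ρ →
  (∀ U : Finset (CI h pj), ((cat s h pj).ew U : ℝ) ≤ ρ * U.card) →
  ∃ K₁ : ℝ, 0 < K₁ ∧ ∀ (V K : Type) [Fintype V] (A : V → V → Prop) (lam : Fin 2 → V → V → K),
  PrE A lam → 0 < Fintype.card V →
  K₁ * (Fintype.card V : ℝ) ^ (2 - 1 / ρ) ≤ ∑ v, (deg A v : ℝ) → RB (cat s h pj) A lam q

/-! ## H. The pair graph -/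

/-- GH1. Heavy 2-walks. Choose `a` with at least `ε D²` heavy pairs `(b, b')` in `N(a)²` and `#N(a) ≤ κ D`; let `Bad` be the `b ∈ N(a)`
with fewer than `(ε/4) D² / #N(a)` heavy partners in `N(a)`. The heavy pairs without `Bad` are at least `(ε/2) D²`, so
`Σ_{a' ≠ a} #(N(a') ∩ N(a) \ Bad)² ≥ (ε/2) D² (C - 1)`, and `Σ_{a'} #(N(a') ∩ N(a)) ≤ #N(a) κ D ≤ κ² D²`: there is `a' ≠ a` with
at least `q₀ = (ε/2)(C-1)/κ²` elements `z` in `N(a') ∩ N(a) \ Bad`. Take `q₀` of them; each has at least `(ε/(4κ)) D` heavy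
partners `w ∈ N(a)`; by averaging `t` of the `z` have at least `c D` common heavy partners (`q₀` large), leave out the at
most `2` which collide with `a'` (`A a w` and `Co w a'`: at most two, `inj1`, `inj2`) and the chosen `z`. -/
def GH1_stmt : Prop := ∀ (t : ℕ) (κ ε : ℝ), 1 ≤ κ → 0 < ε → ∀ C₀ : ℕ, ∃ (C : ℕ) (D₀ : ℝ), C₀ ≤ C ∧
  ∀ (V X : Type) [Fintype V] (A : V → V → Prop) (p q : V → X) (D : ℝ), PG A p q → 0 < Fintype.card V → D₀ ≤ D →
  (∀ v, D ≤ deg A v) → (∀ v, (deg A v : ℝ) ≤ κ * D) → ε * Fintype.card V * D ^ 2 ≤ hw2 A C →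
  ∃ (a a' : V) (w z : Fin t → V), a ≠ a' ∧ Function.Injective w ∧ Function.Injective z ∧
    (∀ i j, w i ≠ z j) ∧ (∀ i, A a (w i)) ∧ (∀ i, A a (z i)) ∧ (∀ i, A a' (z i)) ∧
    (∀ i, ¬ Co p q a' (w i)) ∧ ∀ i j, C ≤ cd A (w i) (z j)

/-- GH2 (from `GR_stmt`, `NL_stmt`). Embedding: hubs and slots of the other vertices are `w`s, the others and hub slots are
`z`s (`t` at least the number of all of them), `m true = a`, `m false = a'`, middles greedily: for the edge `e` of the copy `j` in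
the at least `C` common neighbours of its ends, a given vertex collides with at most two of them. `w`s and `z`s do not
collide (neighbours of `a`), `a` and `a'` do not collide (common neighbour `z`, `t ≥ 1`). -/
def GH2_stmt : Prop := ∀ (I : Type) [Fintype I] (T : Tr I) (hub : I → Bool) (k : ℕ),
  (∀ i j, T.par i = some j → hub i ≠ hub j) → ∃ t C₀ : ℕ, 1 ≤ t ∧
  ∀ (V X : Type) [Fintype V] (A : V → V → Prop) (p q : V → X), PG A p q → ∀ (a a' : V) (w z : Fin t → V),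
    a ≠ a' → Function.Injective w → Function.Injective z → (∀ i j, w i ≠ z j) → (∀ i, A a (w i)) →
    (∀ i, A a (z i)) → (∀ i, A a' (z i)) → (∀ i, ¬ Co p q a' (w i)) → (∀ i j, C₀ ≤ cd A (w i) (z j)) →
    LSub T hub A p q k

/-- good 4-walks: no collisions, all 2-walks light -/
def W4 {V X : Type} [Fintype V] (A : V → V → Prop) (p q : V → X) (C : ℕ) : Finset (Fin 5 → V) :=
  Finset.univ.filter fun v => (∀ i : Fin 4, A (v i.castSucc) (v i.succ)) ∧
    (∀ i j, i ≠ j → ¬ Co p q (v i) (v j)) ∧ cd A (v 0) (v 2) < C ∧ cd A (v 1) (v 3) < C ∧ cd A (v 2) (v 4) < C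

/-- GL1. All 4-walks: at least `n D^4`. With a given sub-2-walk heavy (`b ≠ b'`, `cd ≥ C`): at most `hw2 (κ D)^2`. With a collision
between two of the five vertices: at most `2 n (κ D)^3` (adjacent vertices do not collide; otherwise the second one
is a neighbour of the vertex between and collides with a given vertex: at most two choices). -/
def GL1_stmt : Prop := ∀ κ : ℝ, 1 ≤ κ → ∃ ε D₀ : ℝ, 0 < ε ∧ ∀ (V X : Type) [Fintype V]
  (A : V → V → Prop) (p q : V → X) (C : ℕ) (D : ℝ), PG A p q → D₀ ≤ D → 0 < D →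
  (∀ v, D ≤ deg A v) → (∀ v, (deg A v : ℝ) ≤ κ * D) → (hw2 A C : ℝ) ≤ ε * Fintype.card V * D ^ 2 →
  Fintype.card V * D ^ 4 / 2 ≤ (W4 A p q C).card

/-- GL2. Classes: for a walk without collisions exactly one of `5^10` pairs of functions `(α, β)` restricted to the five
first and five second entries is right; average over all `(α, β)`. -/
def GL2_stmt : Prop := ∀ (V X : Type) [Fintype V] [Fintype X] (p q : V → X) (S : Finset (Fin 5 → V)),
  (∀ v ∈ S, ∀ i j, i ≠ j → ¬ Co p q (v i) (v j)) →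
  ∃ α β : X → Fin 5, S.card ≤ 5 ^ 10 * (S.filter fun v => ∀ i, α (p (v i)) = i ∧ β (q (v i)) = i).card

/-- GL3. Choose the ends `(m, m')` with the most walks of `S` (at least `#S / n²`). For given ends a given middle vertex `c` lies in at
most `C²` walks, a given pair `(w, z)` in at most `C` walks: choose a maximal family `F` of walks in which no `c` and no
`(w, z)` occurs twice; it has at least `1/(C² + C)` of them. -/
def GL3_stmt : Prop := ∀ (V X : Type) [Fintype V] (A : V → V → Prop) (p q : V → X) (C : ℕ)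
  (S : Finset (Fin 5 → V)), PG A p q → S ⊆ W4 A p q C → S.Nonempty →
  ∃ F : Finset (Fin 5 → V), F ⊆ S ∧ (∀ v ∈ F, ∀ v' ∈ F, v 0 = v' 0 ∧ v 4 = v' 4) ∧
    (∀ v ∈ F, ∀ v' ∈ F, v 2 = v' 2 → v = v') ∧ (∀ v ∈ F, ∀ v' ∈ F, v 1 = v' 1 → v 3 = v' 3 → v = v') ∧
    S.card ≤ (C ^ 2 + C) * (Fintype.card V) ^ 2 * F.card

/-- GL4. `F` as in GL3 with classes. On the type of the vertices which are `v 1` or `v 3` for some `v ∈ F` (at most `2 Δ`) let
`A' u w` if there is `v ∈ F` with `{u, w} = {v 1, v 3}` (as an ordered pair in one of the two orders), `lam 0 = p (v 2)`,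
`lam 1 = q (v 2)` of this `v` (unique by GL3; arbitrary for nonadjacent pairs). `PrE`: two edges at `v 1` with the same `p (v 2)` have the
same `v 2` by `inj1` (both are neighbours of `v 1`), so are equal; the same at `v 3`. The sum of the degrees is `2 #F`. -/
def GL4_stmt : Prop := ∀ (V X : Type) [Fintype V] (A : V → V → Prop) (p q : V → X) (α β : X → Fin 5) (Δ : ℕ)
  (F : Finset (Fin 5 → V)), PG A p q → (∀ v, deg A v ≤ Δ) → F.Nonempty →
  (∀ v ∈ F, ∀ i : Fin 4, A (v i.castSucc) (v i.succ)) →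
  (∀ v ∈ F, ∀ i, α (p (v i)) = i ∧ β (q (v i)) = i) → (∀ v ∈ F, ∀ v' ∈ F, v 0 = v' 0 ∧ v 4 = v' 4) →
  (∀ v ∈ F, ∀ v' ∈ F, v 2 = v' 2 → v = v') → (∀ v ∈ F, ∀ v' ∈ F, v 1 = v' 1 → v 3 = v' 3 → v = v') →
  ∃ (U : Finset V) (A' : {v // v ∈ U} → {v // v ∈ U} → Prop) (lam : Fin 2 → {v // v ∈ U} → {v // v ∈ U} → X),
    U.Nonempty ∧ U.card ≤ 2 * Δ ∧ PrE A' lam ∧ 2 * F.card ≤ ∑ v, deg A' v ∧
    ∀ u w, A' u w → ∃ v ∈ F, ((u.1 = v 1 ∧ w.1 = v 3) ∨ (u.1 = v 3 ∧ w.1 = v 1)) ∧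
      lam 0 u w = p (v 2) ∧ lam 1 u w = q (v 2)

/-- GL5. A rainbow copy of `T^k` in `A'` of GL4 gives `LSub`. The classes of the ends of an edge of `A'` are `1` and `3`; as `T` is
connected and `hub` changes along edges, all hubs of all copies have the same class (all slots are common to the
copies; if there are no slots and several copies this may fail, so assume `T.R` is nonempty), the others have the other class. The
link to the hubs is `v 0` if the class of the hubs is `1`, otherwise `v 4`. `c j e` is `v 2` of the walk of the edge. Collisions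
inside class `1`: neighbours of `v 0` with the same first entry are equal (`inj1`); class `3`: neighbours of `v 4`; class `2`: rainbow. -/
def GL5_stmt : Prop := ∀ (I : Type) [Fintype I] (T : Tr I) (hub : I → Bool) (k : ℕ),
  (∀ i j, T.par i = some j → hub i ≠ hub j) → Nonempty T.R →
  ∀ (V X : Type) [Fintype V] (A : V → V → Prop) (p q : V → X) (α β : X → Fin 5)
  (F : Finset (Fin 5 → V)), PG A p q →
  (∀ v ∈ F, ∀ i : Fin 4, A (v i.castSucc) (v i.succ)) → (∀ v ∈ F, ∀ i j, i ≠ j → ¬ Co p q (v i) (v j)) →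
  (∀ v ∈ F, ∀ i, α (p (v i)) = i ∧ β (q (v i)) = i) → (∀ v ∈ F, ∀ v' ∈ F, v 0 = v' 0 ∧ v 4 = v' 4) →
  ∀ (U : Finset V) (A' : {v // v ∈ U} → {v // v ∈ U} → Prop) (lam : Fin 2 → {v // v ∈ U} → {v // v ∈ U} → X),
  PrE A' lam → (∀ u w, A' u w → ∃ v ∈ F, ((u.1 = v 1 ∧ w.1 = v 3) ∨ (u.1 = v 3 ∧ w.1 = v 1)) ∧
      lam 0 u w = p (v 2) ∧ lam 1 u w = q (v 2)) →
  1 ≤ k → RB T A' lam k → LSub T hub A p q k

/-- GLA (from GH1, GH2, GL1 - GL5, OP). `κ` given. `ε` from GL1; `t`, `C₀` from GH2, `C` from GH1 for `ε`. If `hw2 ≥ ε n D²`: GH1, GH2. If not: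
GL1, GL2, GL3 give `F` with `#F ≥ c D^4 / n`, GL4 a graph with at most `n' = 2 κ D` vertices and `2 #F ≥ K₁ n'^(2 - 1/ρ)` as
`D^(2 + 1/ρ) ≥ K n`; OP, GL5. -/
def GLA_stmt : Prop := ∀ (s h : ℕ) (pj : Fin (h + 1) → ℕ) (ρ κ : ℝ) (k : ℕ), 4 ≤ s → (s : ℝ) - 1 ≤ ρ → 1 ≤ κ →
  1 ≤ k → (∀ U : Finset (CI h pj), ((cat s h pj).ew U : ℝ) ≤ ρ * U.card) →
  ∃ K₁ : ℝ, 0 < K₁ ∧ ∀ (V X : Type) [Fintype V] [Fintype X] (A : V → V → Prop) (p q : V → X) (D : ℝ), PG A p q →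
  0 < Fintype.card V → 1 ≤ D → (∀ v, D ≤ deg A v) → (∀ v, (deg A v : ℝ) ≤ κ * D) →
  K₁ * (Fintype.card V : ℝ) ≤ D ^ (2 + 1 / ρ) → LSub (cat s h pj) chub A p q k

/-- TK2. As `TRK`: `LSub` in the pair graph of `χ` gives two disjoint colour isomorphic copies of the power of the linked
subdivision: `φ` (`ψ`) are the first (second) entries; first entries are in the part `true` of `ω`, second entries in the part
`false` (every vertex of the copy has a neighbour in it). Transport through the bijections in `mkR`. -/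
def TK2_stmt : Prop := ∀ (I : Type) [Fintype I] (T : Tr I) (hub : I → Bool) (k : ℕ) (V K : Type) [Fintype V]
  (χ : V → V → K) (ω : V → Bool) (U : Finset (V × V)), PC χ → 1 ≤ k → (∀ b, ∃ i, hub i = b) →
  LSub T hub (fun u w : {x // x ∈ U} => Gb χ ω u.1 w.1) (fun u => u.1.1) (fun u => u.1.2) k →
  Two ((LS T hub).pw k) χ

/-- LBI (from `EC_stmt`, PT, TRK (`PG` part), MD, GLA, TK2), as `LBK`. `β = ρ/(2ρ+1)`, `4 - (1 + 1/(1+2ρ)) = 2 (1 + β)`, `β (2 + 1/ρ) = 1`: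
MD with `a = β` gives `D ≥ C₂ #U^β`, so `D^(2+1/ρ) ≥ C₂^.. #U`. -/
def LBI_stmt : Prop := ∀ (s h : ℕ) (pj : Fin (h + 1) → ℕ) (ρ : ℝ) (k : ℕ), 4 ≤ s → (s : ℝ) - 1 ≤ ρ → 1 ≤ k →
  (∃ u : CI h pj, chub u = false) → (∀ U : Finset (CI h pj), ((cat s h pj).ew U : ℝ) ≤ ρ * U.card) →
  ∃ c : ℝ, 0 < c ∧ ∃ N : ℕ, ∀ n : ℕ, N ≤ n → ∀ m : ℕ, ∀ χ : Fin n → Fin n → Fin m, PC χ →
    ¬ Two ((LS (cat s h pj) chub).pw k) χ → c * (n : ℝ) ^ (1 + 1 / (1 + 2 * ρ)) ≤ (m : ℝ)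

/-! ## I. The graph H -/

/-- LN. `card Ed = ew univ`, `v = card I + card Ed`, `e = 2 card Ed + card I`. -/
def LN_stmt : Prop := ∀ (I : Type) [Fintype I] (T : Tr I) (hub : I → Bool),
  Fintype.card T.Ed = T.ew Finset.univ ∧ (LS T hub).v = Fintype.card I + Fintype.card T.Ed ∧
    (LS T hub).e = 2 * Fintype.card T.Ed + Fintype.card I

/-- LB (from LN). Balanced. By the bijections in `mkR` it is enough: for `S ⊆ I ⊕ Ed`, `S_I`, `S_E` the two parts, the number of edges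
meeting `S` is at least `(e/v) #S`. Let `t` = number of edges of `T` touching `S_I` `= ew univ - ew (S_I)ᶜ ≥ ρ #S_I` (hypotheses). The links of
`S_I`: `#S_I` edges; a half edge with its end in `S_I` or its middle in `S_E`: for `e` touching `S_I`: at least one half, both
halves if `e ∈ S_E`; for `e ∈ S_E` not touching `S_I`: two halves. With `k₁`, `k₂` the numbers of `e ∈ S_E` touching, not touching `S_I`
(`k₁ ≤ t`): `es ≥ #S_I + t + k₁ + 2 k₂` and `#S = #S_I + k₁ + k₂`, `e/v = (1 + 2ρ)/(1 + ρ)`; as `1 ≤ e/v ≤ 2` the worst case is `k₁ = t`,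
`k₂ = 0`, then `t ≥ ρ #S_I`. -/
def LB_stmt2 : Prop := ∀ (I : Type) [Fintype I] (T : Tr I) (hub : I → Bool) (ρ : ℚ), 1 ≤ ρ →
  (∀ U : Finset I, (T.ew U : ℚ) ≤ ρ * U.card) → (T.ew Finset.univ : ℚ) = ρ * Fintype.card I →
  (LS T hub).Balanced

/-- LC. Bipartite: slots and vertices of `T` against middles and link roots. -/
def LC_stmt : Prop := ∀ (I : Type) [Fintype I] (T : Tr I) (hub : I → Bool) (k : ℕ),
  ((LS T hub).pw k).Colorable 2

/-- FIN (from LBI, LN, LB_stmt2, LC, CB1, CB2, `UB_stmt`, `MONO_stmt`, `ISO_stmt`; see `MAIN_theta` in Pool/Agent/helper23/TH/Main.lean).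
`ρ = (1/(r-1) - 1)/2 ≥ 3`, `s = ⌊ρ⌋ + 1 ≥ 4`. -/
def FIN_stmt : Prop := ∀ r : ℚ, 1 < r → r ≤ 8 / 7 → ∃ k : ℕ, ∃ H : SimpleGraph (Fin k), H.Colorable 2 ∧ Law H (r : ℝ)

end

end Pool.Agent.IV
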