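import Pool.Agent.helper90.IV.Spec

set_option autoImplicit false

open scoped BigOperators

namespace Pool.Agent.helper90.IV

open Pool.Agent.helper23.TH Pool.Agent.KS Pool.Agent.IV

noncomputable section

open Classical

/-- the ends of an edge -/
def NI_ends {I : Type} (T : Tr I) : T.Ed → (I ⊕ T.R) × (I ⊕ T.R)
  | .inl e => (.inl e.1.1, .inl e.1.2)
  | .inr r => (.inl r.1, .inr r)

theorem NI_col {I V K : Type} (T : Tr I) (lam : Fin 2 → V → V → K) (l : Fin 2) (x : I → V) (y : T.R → V)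
    (e : T.Ed) : T.col lam l x y e = lam l (Sum.elim x y (NI_ends T e).1) (Sum.elim x y (NI_ends T e).2) := by
  rcases e with e | r <;> rfl

theorem NI_adj {I V : Type} (T : Tr I) (A : V → V → Prop) (x : I → V) (y : T.R → V) (h : T.hom A x y)
    (e : T.Ed) : A (Sum.elim x y (NI_ends T e).1) (Sum.elim x y (NI_ends T e).2) := by
  rcases e with e | r
  · exact h.1 _ _ e.2
  · exact h.2 r

theorem NI_live {I : Type} (T : Tr I) (gh : T.R → Option I) (e : T.Ed) (h : lve T gh e) :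
    lvv T gh (NI_ends T e).1 ∧ lvv T gh (NI_ends T e).2 := by
  rcases e with e | r
  · exact ⟨trivial, trivial⟩
  · exact ⟨trivial, h⟩

theorem NI_ne {I : Type} (T : Tr I) (e : T.Ed) : (NI_ends T e).1 ≠ (NI_ends T e).2 := by
  rcases e with e | r
  · intro h
    have h2 : e.1.1 = e.1.2 := Sum.inl.inj h
    have := T.lt _ _ e.2
    rw [h2] at this
    exact lt_irrefl _ this
  · intro h; cases h

theorem NI_inj {I : Type} (T : Tr I) (e e' : T.Ed) (h : NI_ends T e = NI_ends T e') : e = e' := by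
  rcases e with e | r <;> rcases e' with e' | r'
  · have h1 : e.1.1 = e'.1.1 := Sum.inl.inj (Prod.mk.inj h).1
    have h2 : e.1.2 = e'.1.2 := Sum.inl.inj (Prod.mk.inj h).2
    congr 1
    exact Subtype.ext (Prod.ext h1 h2)
  · have := (Prod.mk.inj h).2; cases this
  · have := (Prod.mk.inj h).2; cases this
  · have h2 : r = r' := Sum.inr.inj (Prod.mk.inj h).2
    rw [h2]

theorem NI_swap {I : Type} (T : Tr I) (e e' : T.Ed) (h1 : (NI_ends T e).1 = (NI_ends T e').2)
    (h2 : (NI_ends T e).2 = (NI_ends T e').1) : False := by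
  rcases e with e | r <;> rcases e' with e' | r'
  · have g1 : e.1.1 = e'.1.2 := Sum.inl.inj h1
    have g2 : e.1.2 = e'.1.1 := Sum.inl.inj h2
    have a := T.lt _ _ e.2
    have b := T.lt _ _ e'.2
    rw [g1, g2] at a
    exact lt_asymm a b
  · cases h1
  · cases h2
  · cases h1

/-- two given live vertices have the same value -/
theorem NI_vert (hTE : TE_stmt) {I : Type} [Fintype I] (T : Tr I) {V : Type} [Fintype V] (A : V → V → Prop)
    (Δ : ℝ) (gh : T.R → Option I) (hs : ∀ a b, A a b → A b a) (hΔ : 0 < Δ)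
    (hdeg : ∀ v, (deg A v : ℝ) ≤ Δ) (t t' : I ⊕ T.R) (ht : lvv T gh t) (ht' : lvv T gh t') (hne : t ≠ t') :
    (((Hm T A gh).filter fun f => Sum.elim f.1 f.2 t = Sum.elim f.1 f.2 t').card : ℝ) * Δ ^ 2 ≤
      Fintype.card V * Δ ^ (Fintype.card I + nl T gh) := by
  have hsub : ((Hm T A gh).filter fun f => Sum.elim f.1 f.2 t = Sum.elim f.1 f.2 t') ⊆
      (Finset.univ : Finset V).biUnion fun v => (Hm T A gh).filter fun f =>
        ∀ u ∈ ({t, t'} : Finset (I ⊕ T.R)), Sum.elim f.1 f.2 u = (fun _ => v) u := by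
    intro f hf
    rw [Finset.mem_filter] at hf
    rw [Finset.mem_biUnion]
    refine ⟨Sum.elim f.1 f.2 t, Finset.mem_univ _, ?_⟩
    rw [Finset.mem_filter]
    refine ⟨hf.1, ?_⟩
    intro u hu
    rw [Finset.mem_insert, Finset.mem_singleton] at hu
    rcases hu with rfl | rfl
    · rfl
    · exact hf.2.symm
  have h1 : (((Hm T A gh).filter fun f => Sum.elim f.1 f.2 t = Sum.elim f.1 f.2 t').card : ℝ) ≤
      ∑ v : V, (((Hm T A gh).filter fun f =>
        ∀ u ∈ ({t, t'} : Finset (I ⊕ T.R)), Sum.elim f.1 f.2 u = (fun _ => v) u).card : ℝ) := by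
    exact_mod_cast (Finset.card_le_card hsub).trans Finset.card_biUnion_le
  have hc : ({t, t'} : Finset (I ⊕ T.R)).card = 2 := Finset.card_pair hne
  calc _ ≤ (∑ v : V, (((Hm T A gh).filter fun f =>
        ∀ u ∈ ({t, t'} : Finset (I ⊕ T.R)), Sum.elim f.1 f.2 u = (fun _ => v) u).card : ℝ)) * Δ ^ 2 :=
        mul_le_mul_of_nonneg_right h1 (by positivity)
    _ = ∑ v : V, (((Hm T A gh).filter fun f =>
        ∀ u ∈ ({t, t'} : Finset (I ⊕ T.R)), Sum.elim f.1 f.2 u = (fun _ => v) u).card : ℝ) * Δ ^ 2 :=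
        Finset.sum_mul _ _ _
    _ ≤ ∑ _v : V, Δ ^ (Fintype.card I + nl T gh) := by
        apply Finset.sum_le_sum
        intro v _
        have := hTE I T V A Δ gh hs hΔ hdeg {t, t'} (fun _ => v) ⟨t, Finset.mem_insert_self _ _⟩ (by
          intro u hu
          rw [Finset.mem_insert, Finset.mem_singleton] at hu
          rcases hu with rfl | rfl
          · exact ht
          · exact ht')
        rw [hc] at this
        exact this
    _ = _ := by rw [Finset.sum_const, Finset.card_univ, nsmul_eq_mul]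

/-- pairs of edges with the same colour -/
theorem NI_quad {V K : Type} [Fintype V] (A : V → V → Prop) (lam : Fin 2 → V → V → K) (hA : PrE A lam)
    (Δ : ℝ) (hdeg : ∀ v, (deg A v : ℝ) ≤ Δ) (l : Fin 2) :
    (((Finset.univ : Finset ((V × V) × (V × V))).filter fun q => A q.1.1 q.1.2 ∧ A q.2.1 q.2.2 ∧
      lam l q.1.1 q.1.2 = lam l q.2.1 q.2.2).card : ℝ) ≤ (Fintype.card V : ℝ) ^ 2 * Δ := by
  set Q := (Finset.univ : Finset ((V × V) × (V × V))).filter fun q => A q.1.1 q.1.2 ∧ A q.2.1 q.2.2 ∧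
      lam l q.1.1 q.1.2 = lam l q.2.1 q.2.2 with hQ
  set P := (Finset.univ : Finset (V × V)).biUnion (fun vw =>
    (Finset.univ.filter fun u => A vw.1 u).image fun u => (vw.1, u, vw.2)) with hP
  have hPc : (P.card : ℝ) ≤ (Fintype.card V : ℝ) ^ 2 * Δ := by
    have h1 : P.card ≤ ∑ vw : V × V, deg A vw.1 :=
      Finset.card_biUnion_le.trans (Finset.sum_le_sum fun vw _ => Finset.card_image_le)
    calc (P.card : ℝ) ≤ ((∑ vw : V × V, deg A vw.1 : ℕ) : ℝ) := by exact_mod_cast h1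
      _ = ∑ vw : V × V, (deg A vw.1 : ℝ) := by push_cast; rfl
      _ ≤ ∑ _vw : V × V, Δ := Finset.sum_le_sum fun vw _ => hdeg _
      _ = _ := by rw [Finset.sum_const, Finset.card_univ, Fintype.card_prod, nsmul_eq_mul]; push_cast; ring
  have hinj : Q.card ≤ P.card := by
    apply Finset.card_le_card_of_injOn (fun q => (q.1.1, q.1.2, q.2.1))
    · intro q hq
      rw [Finset.mem_coe, hQ, Finset.mem_filter] at hq
      rw [Finset.mem_coe, hP, Finset.mem_biUnion]
      refine ⟨(q.1.1, q.2.1), Finset.mem_univ _, ?_⟩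
      rw [Finset.mem_image]
      exact ⟨q.1.2, Finset.mem_filter.2 ⟨Finset.mem_univ _, hq.2.1⟩, rfl⟩
    · intro q hq q' hq' h
      rw [Finset.mem_coe, hQ, Finset.mem_filter] at hq hq'
      obtain ⟨-, a1, a2, a3⟩ := hq
      obtain ⟨-, b1, b2, b3⟩ := hq'
      obtain ⟨⟨u1, u2⟩, ⟨u3, u4⟩⟩ := q
      obtain ⟨⟨w1, w2⟩, ⟨w3, w4⟩⟩ := q'
      simp only [Prod.mk.injEq] at h a1 a2 a3 b1 b2 b3
      obtain ⟨rfl, rfl, rfl⟩ := h
      have : u4 = w4 := hA.prop l u3 u4 w4 a2 b2 (a3.symm.trans b3)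
      rw [this]
  exact (by exact_mod_cast hinj : (Q.card : ℝ) ≤ P.card).trans hPc

/-- two given disjoint live edges have the same colour -/
theorem NI_edge (hTE : TE_stmt) {I : Type} [Fintype I] (T : Tr I) {V K : Type} [Fintype V] (A : V → V → Prop)
    (lam : Fin 2 → V → V → K) (hA : PrE A lam)
    (Δ : ℝ) (gh : T.R → Option I) (hΔ : 0 < Δ)
    (hdeg : ∀ v, (deg A v : ℝ) ≤ Δ) (l : Fin 2) (a b c e : I ⊕ T.R) (ha : lvv T gh a) (hb : lvv T gh b)
    (hc : lvv T gh c) (he : lvv T gh e) (hab : a ≠ b) (hac : a ≠ c) (hae : a ≠ e) (hbc : b ≠ c)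
    (hbe : b ≠ e) (hce : c ≠ e) :
    (((Hm T A gh).filter fun f => A (Sum.elim f.1 f.2 a) (Sum.elim f.1 f.2 b) ∧
      A (Sum.elim f.1 f.2 c) (Sum.elim f.1 f.2 e) ∧
      lam l (Sum.elim f.1 f.2 a) (Sum.elim f.1 f.2 b) =
      lam l (Sum.elim f.1 f.2 c) (Sum.elim f.1 f.2 e)).card : ℝ) * Δ ^ 4 ≤
      (Fintype.card V : ℝ) ^ 2 * Δ * Δ ^ (Fintype.card I + nl T gh) := by
  set Q := (Finset.univ : Finset ((V × V) × (V × V))).filter fun q => A q.1.1 q.1.2 ∧ A q.2.1 q.2.2 ∧
      lam l q.1.1 q.1.2 = lam l q.2.1 q.2.2 with hQ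
  set Z : Finset (I ⊕ T.R) := {a, b, c, e} with hZ
  set g : ((V × V) × (V × V)) → I ⊕ T.R → V := fun q u =>
    if u = a then q.1.1 else if u = b then q.1.2 else if u = c then q.2.1 else q.2.2 with hg
  have hZc : Z.card = 4 := by
    rw [hZ, Finset.card_insert_of_notMem (by simp [hab, hac, hae]),
      Finset.card_insert_of_notMem (by simp [hbc, hbe]), Finset.card_pair hce]
  set F := (Hm T A gh).filter fun f => A (Sum.elim f.1 f.2 a) (Sum.elim f.1 f.2 b) ∧
      A (Sum.elim f.1 f.2 c) (Sum.elim f.1 f.2 e) ∧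
      lam l (Sum.elim f.1 f.2 a) (Sum.elim f.1 f.2 b) =
      lam l (Sum.elim f.1 f.2 c) (Sum.elim f.1 f.2 e) with hF
  have hsub : F ⊆ Q.biUnion fun q => (Hm T A gh).filter fun f =>
        ∀ u ∈ Z, Sum.elim f.1 f.2 u = g q u := by
    intro f hf
    rw [hF, Finset.mem_filter] at hf
    obtain ⟨h1, h2, h3, h4⟩ := hf
    rw [Finset.mem_biUnion]
    refine ⟨((Sum.elim f.1 f.2 a, Sum.elim f.1 f.2 b), (Sum.elim f.1 f.2 c, Sum.elim f.1 f.2 e)), ?_, ?_⟩
    · rw [hQ, Finset.mem_filter]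
      exact ⟨Finset.mem_univ _, h2, h3, h4⟩
    · rw [Finset.mem_filter]
      refine ⟨h1, ?_⟩
      intro u hu
      simp only [hZ, Finset.mem_insert, Finset.mem_singleton] at hu
      simp only [hg]
      rcases hu with rfl | rfl | rfl | rfl
      · rw [if_pos rfl]
      · rw [if_neg (Ne.symm hab), if_pos rfl]
      · rw [if_neg (Ne.symm hac), if_neg (Ne.symm hbc), if_pos rfl]
      · rw [if_neg (Ne.symm hae), if_neg (Ne.symm hbe), if_neg (Ne.symm hce)]
  have h1 : (F.card : ℝ) ≤ ∑ q ∈ Q, (((Hm T A gh).filter fun f =>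
        ∀ u ∈ Z, Sum.elim f.1 f.2 u = g q u).card : ℝ) := by
    exact_mod_cast (Finset.card_le_card hsub).trans Finset.card_biUnion_le
  have hpos : (0 : ℝ) ≤ Δ ^ (Fintype.card I + nl T gh) := by positivity
  calc (F.card : ℝ) * Δ ^ 4 ≤ (∑ q ∈ Q, (((Hm T A gh).filter fun f =>
        ∀ u ∈ Z, Sum.elim f.1 f.2 u = g q u).card : ℝ)) * Δ ^ 4 :=
        mul_le_mul_of_nonneg_right h1 (by positivity)
    _ = ∑ q ∈ Q, (((Hm T A gh).filter fun f =>
        ∀ u ∈ Z, Sum.elim f.1 f.2 u = g q u).card : ℝ) * Δ ^ 4 := Finset.sum_mul _ _ _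
    _ ≤ ∑ _q ∈ Q, Δ ^ (Fintype.card I + nl T gh) := by
        apply Finset.sum_le_sum
        intro q _
        have := hTE I T V A Δ gh hA.symm hΔ hdeg Z (g q) ⟨a, by simp [hZ]⟩ (by
          intro u hu
          simp only [hZ, Finset.mem_insert, Finset.mem_singleton] at hu
          rcases hu with rfl | rfl | rfl | rfl
          · exact ha
          · exact hb
          · exact hc
          · exact he)
        rw [hZc] at this
        exact this
    _ = (Q.card : ℝ) * Δ ^ (Fintype.card I + nl T gh) := by rw [Finset.sum_const, nsmul_eq_mul]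
    _ ≤ _ := mul_le_mul_of_nonneg_right (NI_quad A lam hA Δ hdeg l) hpos

theorem NI (hHLB : HLB_stmt) (hTE : TE_stmt) : NI_stmt := by
  intro I _ T s κ δ hκ hδ
  set M : ℕ := Fintype.card I + Fintype.card T.R with hM
  set B : ℝ := (Fintype.card ((I ⊕ T.R) × (I ⊕ T.R)) : ℝ) + Fintype.card (Fin 2 × T.Ed × T.Ed) with hB
  have hB0 : 0 ≤ B := by positivity
  have hκ0 : (0 : ℝ) < κ := by linarith
  refine ⟨max 1 (B * κ ^ (M + 1) / δ), ?_⟩
  intro V K _ A lam Ch d KE ε K₀ hE hK gh hgv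
  have hK1 : (1 : ℝ) ≤ K₀ := (le_max_left _ _).trans hK
  have hK2 : B * κ ^ (M + 1) / δ ≤ K₀ := (le_max_right _ _).trans hK
  have hK0 : (0 : ℝ) < K₀ := by linarith
  have hd0 : (0 : ℝ) < d := by linarith [hE.d1]
  set n : ℝ := (Fintype.card V : ℝ) with hn
  have hn0 : (0 : ℝ) < n := by rw [hn]; exact_mod_cast hE.pos
  set N : ℕ := Fintype.card I + nl T gh with hN
  have hnl : nl T gh ≤ Fintype.card T.R := by unfold nl; exact Finset.card_le_univ _
  have hNM : N ≤ M := by omega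
  obtain ⟨o, -, -⟩ := T.root
  have hI1 : 1 ≤ Fintype.card I := Fintype.card_pos_iff.2 ⟨o⟩
  set H : ℝ := ((Hm T A gh).card : ℝ) with hH
  have hlow : n * d ^ (N - 1) ≤ H := by
    have := hHLB I T V A d gh hE.pr.symm hd0.le hE.lo hgv
    have e : Fintype.card I - 1 + nl T gh = N - 1 := by omega
    rw [e] at this
    exact this
  have hH0 : 0 ≤ H := Nat.cast_nonneg _
  have hdN : n * d ^ N ≤ d * H := by
    have e : N = (N - 1) + 1 := by omega
    have : n * d ^ N = d * (n * d ^ (N - 1)) := by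
      conv_lhs => rw [e]
      rw [pow_succ]; ring
    rw [this]
    exact mul_le_mul_of_nonneg_left hlow hd0.le
  have hdn : d ≤ n := by
    obtain ⟨v⟩ := Fintype.card_pos_iff.1 hE.pos
    refine (hE.lo v).trans ?_
    rw [hn]
    exact_mod_cast Finset.card_le_univ _
  have hKd : K₀ ≤ d := by
    have h3 := hE.h3
    have h4 : K₀ * d ≤ d * d := by nlinarith
    exact le_of_mul_le_mul_right h4 hd0
  set Δ : ℝ := κ * d with hΔ
  have hΔ0 : 0 < Δ := mul_pos hκ0 hd0
  have hκN : κ ^ N ≤ κ ^ (M + 1) := pow_le_pow_right₀ hκ (by omega)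
  have hκN1 : κ ^ (N + 1) ≤ κ ^ (M + 1) := pow_le_pow_right₀ hκ (by omega)
  have hκM : 0 < κ ^ (M + 1) := pow_pos hκ0 _
  -- vertices
  have hv : ∀ t t', lvv T gh t → lvv T gh t' → t ≠ t' →
      (((Hm T A gh).filter fun f => Sum.elim f.1 f.2 t = Sum.elim f.1 f.2 t').card : ℝ) ≤
        κ ^ (M + 1) / K₀ * H := by
    intro t t' ht ht' hne
    have h1 := NI_vert hTE T A Δ gh hE.pr.symm hΔ0 hE.hi t t' ht ht' hne
    set X : ℝ := (((Hm T A gh).filter fun f => Sum.elim f.1 f.2 t = Sum.elim f.1 f.2 t').card : ℝ) with hX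
    have hX0 : 0 ≤ X := Nat.cast_nonneg _
    rw [← hN] at h1
    have h2 : X * Δ ^ 2 ≤ κ ^ N * (d * H) := by
      refine h1.trans ?_
      rw [hΔ, mul_pow]
      calc n * (κ ^ N * d ^ N) = κ ^ N * (n * d ^ N) := by ring
        _ ≤ κ ^ N * (d * H) := mul_le_mul_of_nonneg_left hdN (by positivity)
    have h3 : X * d ^ 2 ≤ X * Δ ^ 2 := by
      apply mul_le_mul_of_nonneg_left _ hX0
      apply pow_le_pow_left₀ hd0.le
      rw [hΔ]; nlinarith
    have h4 : X * d ^ 2 ≤ κ ^ (M + 1) * (d * H) :=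
      (h3.trans h2).trans (mul_le_mul_of_nonneg_right hκN (by positivity))
    have h5 : X * d ≤ κ ^ (M + 1) * H := by
      have : d * (X * d) ≤ d * (κ ^ (M + 1) * H) := by nlinarith
      exact le_of_mul_le_mul_left this hd0
    have h6 : X * K₀ ≤ κ ^ (M + 1) * H := (mul_le_mul_of_nonneg_left hKd hX0).trans h5
    rw [div_mul_eq_mul_div, le_div_iff₀ hK0]
    exact h6
  -- edges
  have he : ∀ (l : Fin 2) (e e' : T.Ed), lve T gh e → lve T gh e' →
      (NI_ends T e).1 ≠ (NI_ends T e').1 → (NI_ends T e).1 ≠ (NI_ends T e').2 →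
      (NI_ends T e).2 ≠ (NI_ends T e').1 → (NI_ends T e).2 ≠ (NI_ends T e').2 →
      (((Hm T A gh).filter fun f => T.col lam l f.1 f.2 e = T.col lam l f.1 f.2 e').card : ℝ) ≤
        κ ^ (M + 1) / K₀ * H := by
    intro l e e' hle hle' n1 n2 n3 n4
    have h0 := NI_edge hTE T A lam hE.pr Δ gh hΔ0 hE.hi l (NI_ends T e).1 (NI_ends T e).2 (NI_ends T e').1
      (NI_ends T e').2 (NI_live T gh e hle).1 (NI_live T gh e hle).2 (NI_live T gh e' hle').1
      (NI_live T gh e' hle').2 (NI_ne T e) n1 n2 n3 n4 (NI_ne T e')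
    have hsub : ((Hm T A gh).filter fun f => T.col lam l f.1 f.2 e = T.col lam l f.1 f.2 e') ⊆
        ((Hm T A gh).filter fun f => A (Sum.elim f.1 f.2 (NI_ends T e).1) (Sum.elim f.1 f.2 (NI_ends T e).2) ∧
      A (Sum.elim f.1 f.2 (NI_ends T e').1) (Sum.elim f.1 f.2 (NI_ends T e').2) ∧
      lam l (Sum.elim f.1 f.2 (NI_ends T e).1) (Sum.elim f.1 f.2 (NI_ends T e).2) =
      lam l (Sum.elim f.1 f.2 (NI_ends T e').1) (Sum.elim f.1 f.2 (NI_ends T e').2)) := by
      intro f hf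
      rw [Finset.mem_filter] at hf ⊢
      have hh : T.hom A f.1 f.2 := by
        have := hf.1
        unfold Hm at this
        exact (Finset.mem_filter.1 this).2.1
      refine ⟨hf.1, NI_adj T A _ _ hh e, NI_adj T A _ _ hh e', ?_⟩
      have h2 := hf.2
      rw [NI_col, NI_col] at h2
      exact h2
    set X : ℝ := (((Hm T A gh).filter fun f => T.col lam l f.1 f.2 e = T.col lam l f.1 f.2 e').card : ℝ) with hX
    have hX0 : 0 ≤ X := Nat.cast_nonneg _
    have h1 : X * Δ ^ 4 ≤ n ^ 2 * Δ * Δ ^ N := by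
      refine le_trans ?_ h0
      apply mul_le_mul_of_nonneg_right _ (by positivity)
      rw [hX]
      exact_mod_cast Finset.card_le_card hsub
    have h2 : X * Δ ^ 4 ≤ κ ^ (N + 1) * (n * d * (d * H)) := by
      refine h1.trans ?_
      have e1 : n ^ 2 * Δ * Δ ^ N = κ ^ (N + 1) * (n * d * (n * d ^ N)) := by
        rw [hΔ, mul_pow, pow_succ]; ring
      rw [e1]
      apply mul_le_mul_of_nonneg_left _ (by positivity)
      exact mul_le_mul_of_nonneg_left hdN (by positivity)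
    have h3 : X * d ^ 4 ≤ X * Δ ^ 4 := by
      apply mul_le_mul_of_nonneg_left _ hX0
      apply pow_le_pow_left₀ hd0.le
      rw [hΔ]; nlinarith
    have h4 : X * d ^ 4 ≤ κ ^ (M + 1) * (n * d * (d * H)) :=
      (h3.trans h2).trans (mul_le_mul_of_nonneg_right hκN1 (by positivity))
    have h5 : X * d ^ 2 ≤ κ ^ (M + 1) * (n * H) := by
      have hd2 : 0 < d ^ 2 := by positivity
      have : d ^ 2 * (X * d ^ 2) ≤ d ^ 2 * (κ ^ (M + 1) * (n * H)) := by nlinarith
      exact le_of_mul_le_mul_left this hd2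
    have h6 : X * (K₀ * n) ≤ κ ^ (M + 1) * (n * H) := (mul_le_mul_of_nonneg_left hE.h3 hX0).trans h5
    have h7 : X * K₀ ≤ κ ^ (M + 1) * H := by
      have : n * (X * K₀) ≤ n * (κ ^ (M + 1) * H) := by nlinarith
      exact le_of_mul_le_mul_left this hn0
    rw [div_mul_eq_mul_div, le_div_iff₀ hK0]
    exact h7
  -- union bound
  set c : ℝ := κ ^ (M + 1) / K₀ * H with hc
  have hc0 : 0 ≤ c := by positivity
  set E1 : (I ⊕ T.R) × (I ⊕ T.R) → Finset ((I → V) × (T.R → V)) := fun q =>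
    if lvv T gh q.1 ∧ lvv T gh q.2 ∧ q.1 ≠ q.2 then
      (Hm T A gh).filter fun f => Sum.elim f.1 f.2 q.1 = Sum.elim f.1 f.2 q.2 else ∅ with hE1
  set E2 : Fin 2 × T.Ed × T.Ed → Finset ((I → V) × (T.R → V)) := fun q =>
    if lve T gh q.2.1 ∧ lve T gh q.2.2 ∧ (NI_ends T q.2.1).1 ≠ (NI_ends T q.2.2).1 ∧
      (NI_ends T q.2.1).1 ≠ (NI_ends T q.2.2).2 ∧
      (NI_ends T q.2.1).2 ≠ (NI_ends T q.2.2).1 ∧ (NI_ends T q.2.1).2 ≠ (NI_ends T q.2.2).2 then
      (Hm T A gh).filter fun f => T.col lam q.1 f.1 f.2 q.2.1 = T.col lam q.1 f.1 f.2 q.2.2 else ∅ with hE2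
  have hcov : ((Hm T A gh).filter fun f => ¬ Nice T lam gh f.1 f.2) ⊆
      (Finset.univ.biUnion E1) ∪ (Finset.univ.biUnion E2) := by
    intro f hf
    rw [Finset.mem_filter] at hf
    obtain ⟨hf1, hf2⟩ := hf
    have hh : T.hom A f.1 f.2 := by
      have := hf1
      unfold Hm at this
      exact (Finset.mem_filter.1 this).2.1
    rw [Finset.mem_union]
    by_cases hvv : ∃ t t', lvv T gh t ∧ lvv T gh t' ∧ t ≠ t' ∧ Sum.elim f.1 f.2 t = Sum.elim f.1 f.2 t'
    · left
      obtain ⟨t, t', h1, h2, h3, h4⟩ := hvv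
      rw [Finset.mem_biUnion]
      refine ⟨(t, t'), Finset.mem_univ _, ?_⟩
      simp only [hE1]
      rw [if_pos ⟨h1, h2, h3⟩, Finset.mem_filter]
      exact ⟨hf1, h4⟩
    · right
      push Not at hvv
      have hinj : ∀ t t', lvv T gh t → lvv T gh t' → Sum.elim f.1 f.2 t = Sum.elim f.1 f.2 t' → t = t' := by
        intro t t' h1 h2 h3
        by_contra h4
        exact hvv t t' h1 h2 h4 h3
      have hex : ∃ l e e', lve T gh e ∧ lve T gh e' ∧ T.col lam l f.1 f.2 e = T.col lam l f.1 f.2 e' ∧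
          e ≠ e' := by
        by_contra hcon
        push Not at hcon
        exact hf2 ⟨hinj, fun l e e' h1 h2 h3 => hcon l e e' h1 h2 h3⟩
      obtain ⟨l, e, e', h1, h2, h3, h4⟩ := hex
      rw [Finset.mem_biUnion]
      refine ⟨(l, e, e'), Finset.mem_univ _, ?_⟩
      simp only [hE2]
      have a1 := NI_adj T A _ _ hh e
      have a2 := NI_adj T A _ _ hh e'
      have h3' := h3
      rw [NI_col, NI_col] at h3'
      have l1 := NI_live T gh e h1
      have l2 := NI_live T gh e' h2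
      rw [if_pos, Finset.mem_filter]
      · exact ⟨hf1, h3⟩
      · refine ⟨h1, h2, ?_, ?_, ?_, ?_⟩
        · intro g
          rw [g] at a1 h3'
          have g2 := hE.pr.prop l _ _ _ a1 a2 h3'
          exact h4 (NI_inj T e e' (Prod.ext g (hinj _ _ l1.2 l2.2 g2)))
        · intro g
          rw [g] at a1 h3'
          have a2' := hE.pr.symm _ _ a2
          rw [hE.pr.csymm l _ _ a2] at h3'
          have g2 := hE.pr.prop l _ _ _ a1 a2' h3'
          exact NI_swap T e e' g (hinj _ _ l1.2 l2.1 g2)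
        · intro g
          have a1' := hE.pr.symm _ _ a1
          rw [hE.pr.csymm l _ _ a1] at h3'
          rw [g] at a1' h3'
          have g2 := hE.pr.prop l _ _ _ a1' a2 h3'
          exact NI_swap T e e' (hinj _ _ l1.1 l2.2 g2) g
        · intro g
          have a1' := hE.pr.symm _ _ a1
          have a2' := hE.pr.symm _ _ a2
          rw [hE.pr.csymm l _ _ a1, hE.pr.csymm l _ _ a2] at h3'
          rw [g] at a1' h3'
          have g2 := hE.pr.prop l _ _ _ a1' a2' h3'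
          exact h4 (NI_inj T e e' (Prod.ext (hinj _ _ l1.1 l2.1 g2) g))
  have hb1 : ((Finset.univ.biUnion E1).card : ℝ) ≤ Fintype.card ((I ⊕ T.R) × (I ⊕ T.R)) * c := by
    have h1 : ((Finset.univ.biUnion E1).card : ℝ) ≤ ∑ q, ((E1 q).card : ℝ) := by
      exact_mod_cast Finset.card_biUnion_le
    refine h1.trans ?_
    rw [← Finset.card_univ, ← nsmul_eq_mul, ← Finset.sum_const]
    apply Finset.sum_le_sum
    intro q _
    simp only [hE1]
    split_ifs with h
    · exact hv q.1 q.2 h.1 h.2.1 h.2.2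
    · simp only [Finset.card_empty, Nat.cast_zero]; exact hc0
  have hb2 : ((Finset.univ.biUnion E2).card : ℝ) ≤ Fintype.card (Fin 2 × T.Ed × T.Ed) * c := by
    have h1 : ((Finset.univ.biUnion E2).card : ℝ) ≤ ∑ q, ((E2 q).card : ℝ) := by
      exact_mod_cast Finset.card_biUnion_le
    refine h1.trans ?_
    rw [← Finset.card_univ, ← nsmul_eq_mul, ← Finset.sum_const]
    apply Finset.sum_le_sum
    intro q _
    simp only [hE2]
    split_ifs with h
    · exact he q.1 q.2.1 q.2.2 h.1 h.2.1 h.2.2.1 h.2.2.2.1 h.2.2.2.2.1 h.2.2.2.2.2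
    · simp only [Finset.card_empty, Nat.cast_zero]; exact hc0
  have htot : (((Hm T A gh).filter fun f => ¬ Nice T lam gh f.1 f.2).card : ℝ) ≤ B * c := by
    have h1 : (((Hm T A gh).filter fun f => ¬ Nice T lam gh f.1 f.2).card : ℝ) ≤
        (Finset.univ.biUnion E1).card + (Finset.univ.biUnion E2).card := by
      exact_mod_cast (Finset.card_le_card hcov).trans (Finset.card_union_le _ _)
    rw [hB, add_mul]
    linarith
  refine htot.trans ?_
  have h1 : B * κ ^ (M + 1) ≤ K₀ * δ := by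
    rwa [div_le_iff₀ hδ] at hK2
  have h2 : B * (κ ^ (M + 1) / K₀) ≤ δ := by
    rw [← mul_div_assoc, div_le_iff₀ hK0]
    linarith
  calc B * c = B * (κ ^ (M + 1) / K₀) * H := by rw [hc]; ring
    _ ≤ δ * H := mul_le_mul_of_nonneg_right h2 hH0

end

end Pool.Agent.helper90.IV
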