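import Pool.Agent.helper90.IV.Spec

set_option autoImplicit false

open scoped BigOperators

namespace Pool.Agent.IV

open Pool.Agent.helper23.TH Pool.Agent.KS

noncomputable section

open Classical

theorem dO_pos {I : Type} [Fintype I] (T : Tr I) (W : Finset I) (u j : I) (h : T.nb u j) (hj : j ∉ W) :
    1 ≤ T.dO W u := by
  unfold Tr.dO
  rw [Nat.succ_le_iff, Finset.card_pos]
  exact ⟨j, Finset.mem_filter.2 ⟨Finset.mem_univ _, hj, h⟩⟩

theorem TC : TC_stmt := by
  intro s h pj hs
  have parC : ∀ j : Fin h, (cat s h pj).par (.inr (.inl j)) = some (.inl j.castSucc) := fun j => rfl
  have parK : ∀ c : (Σ j : Fin (h + 1), Fin (pj j)), (cat s h pj).par (.inr (.inr c)) = some (.inl c.1) :=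
    fun c => rfl
  have parS : ∀ j : Fin h, (cat s h pj).par (.inl j.succ) = some (.inr (.inl j)) := fun j => by
    simp [cat]
  have par0 : (cat s h pj).par (.inl 0) = none := by simp [cat]
  have roH : ∀ i, (cat s h pj).ro (.inl i) = s - 2 := fun i => rfl
  have roC : ∀ j, (cat s h pj).ro (.inr (.inl j)) = s - 2 := fun i => rfl
  have roK : ∀ c, (cat s h pj).ro (.inr (.inr c)) = s - 1 := fun i => rfl
  refine ⟨?_, by omega, ?_, ?_⟩
  · rintro (i | i | i)
    · rw [roH]
    · rw [roC]
    · rw [roK]; omega
  · rintro (i | i | i) (j | j | j) hij
    · rw [roH, roH]; omega
    · rw [roH, roC]; omega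
    · rw [roH, roK]; omega
    · rw [roC, roH]; omega
    · rw [roC, roC]; omega
    · rw [roC, roK]; omega
    · rw [roK, roH]; omega
    · rw [parK] at hij; simp at hij
    · rw [parK] at hij; simp at hij
  · intro W hW u hu
    rcases u with i | i | i
    · -- a hub: its children are not in W
      rw [roH]
      have hsub : (W.filter fun j => (cat s h pj).nb (.inl i) j) ⊆
          (Finset.univ.filter fun j : Fin h => j.castSucc = i ∨ j.succ = i).image
            (fun j => (Sum.inr (Sum.inl j) : CI h pj)) := by
        intro w hw
        rw [Finset.mem_filter] at hw
        obtain ⟨hwW, hnb⟩ := hw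
        rw [Finset.mem_image]
        rcases w with w | w | w
        · exfalso
          rcases hnb with hnb | hnb
          · induction i using Fin.cases with
            | zero => rw [par0] at hnb; simp at hnb
            | succ i => rw [parS] at hnb; simp at hnb
          · induction w using Fin.cases with
            | zero => rw [par0] at hnb; simp at hnb
            | succ w => rw [parS] at hnb; simp at hnb
        · refine ⟨w, ?_, rfl⟩
          rw [Finset.mem_filter]
          refine ⟨Finset.mem_univ _, ?_⟩
          rcases hnb with hnb | hnb
          · induction i using Fin.cases with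
            | zero => rw [par0] at hnb; simp at hnb
            | succ i =>
              rw [parS] at hnb
              simp only [Option.some.injEq, Sum.inr.injEq, Sum.inl.injEq] at hnb
              right; rw [hnb]
          · rw [parC] at hnb
            simp only [Option.some.injEq, Sum.inl.injEq] at hnb
            left; exact hnb
        · exfalso
          have h1 := hW _ hwW
          rw [roK] at h1
          have h2 : 1 ≤ (cat s h pj).dO W (.inr (.inr w)) := by
            refine dO_pos _ _ _ (.inl i) ?_ hu
            rcases hnb with hnb | hnb
            · exact Or.inr hnb
            · exact Or.inl hnb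
          omega
      have h3 : (Finset.univ.filter fun j : Fin h => j.castSucc = i ∨ j.succ = i).card ≤ 2 := by
        have : (Finset.univ.filter fun j : Fin h => j.castSucc = i ∨ j.succ = i) ⊆
            (Finset.univ.filter fun j : Fin h => j.castSucc = i) ∪
              (Finset.univ.filter fun j : Fin h => j.succ = i) := by
          intro j hj
          simp only [Finset.mem_filter, Finset.mem_univ, true_and, Finset.mem_union] at hj ⊢
          exact hj
        refine (Finset.card_le_card this).trans ((Finset.card_union_le _ _).trans ?_)
        have ha : (Finset.univ.filter fun j : Fin h => j.castSucc = i).card ≤ 1 := by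
          rw [Finset.card_le_one]
          intro a ha b hb
          simp only [Finset.mem_filter, Finset.mem_univ, true_and] at ha hb
          exact Fin.castSucc_injective _ (ha.trans hb.symm)
        have hb : (Finset.univ.filter fun j : Fin h => j.succ = i).card ≤ 1 := by
          rw [Finset.card_le_one]
          intro a ha b hb
          simp only [Finset.mem_filter, Finset.mem_univ, true_and] at ha hb
          exact Fin.succ_injective _ (ha.trans hb.symm)
        omega
      have h4 := (Finset.card_le_card hsub).trans Finset.card_image_le
      unfold Tr.dI
      omega
    · -- a connector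
      rw [roC]
      have hsub : (W.filter fun j => (cat s h pj).nb (.inr (.inl i)) j) ⊆
          {(Sum.inl i.castSucc : CI h pj), (Sum.inl i.succ : CI h pj)} := by
        intro w hw
        rw [Finset.mem_filter] at hw
        obtain ⟨hwW, hnb⟩ := hw
        rw [Finset.mem_insert, Finset.mem_singleton]
        rcases hnb with hnb | hnb
        · rw [parC] at hnb
          left
          exact (Option.some.inj hnb).symm
        · right
          rcases w with w | w | w
          · induction w using Fin.cases with
            | zero => rw [par0] at hnb; simp at hnb
            | succ w =>
              rw [parS] at hnb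
              simp only [Option.some.injEq, Sum.inr.injEq, Sum.inl.injEq] at hnb
              rw [hnb]
          · rw [parC] at hnb; simp at hnb
          · rw [parK] at hnb; simp at hnb
      have h4 := (Finset.card_le_card hsub).trans (Finset.card_insert_le _ _)
      rw [Finset.card_singleton] at h4
      unfold Tr.dI
      omega
    · rw [roK]
      have hsub : (W.filter fun j => (cat s h pj).nb (.inr (.inr i)) j) ⊆
          {(Sum.inl i.1 : CI h pj)} := by
        intro w hw
        rw [Finset.mem_filter] at hw
        obtain ⟨hwW, hnb⟩ := hw
        rw [Finset.mem_singleton]
        rcases hnb with hnb | hnb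
        · rw [parK] at hnb
          exact (Option.some.inj hnb).symm
        · exfalso
          rcases w with w | w | w
          · induction w using Fin.cases with
            | zero => rw [par0] at hnb; simp at hnb
            | succ w => rw [parS] at hnb; simp at hnb
          · rw [parC] at hnb; simp at hnb
          · rw [parK] at hnb; simp at hnb
      have h4 := (Finset.card_le_card hsub)
      rw [Finset.card_singleton] at h4
      unfold Tr.dI
      omega

end

end Pool.Agent.IV
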