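import Pool.Agent.helper90.IV.Spec

set_option autoImplicit false

open scoped BigOperators

namespace Pool.Agent.helper90.IV

open Pool.Agent.helper23.TH Pool.Agent.KS Pool.Agent.IV

noncomputable section

open Classical

/-- new slot values -/
def TRF_y {I V : Type} {T : Tr I} (gh' : T.R → Option I) (x : I → V) (y : T.R → V) : T.R → V :=
  fun r => (gh' r).elim (y r) x

theorem TRF_y_none {I V : Type} {T : Tr I} (gh' : T.R → Option I) (x : I → V) (y : T.R → V) (r : T.R)
    (h : gh' r = none) : TRF_y gh' x y r = y r := by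
  unfold TRF_y; rw [h]; rfl

theorem TRF_y_some {I V : Type} {T : Tr I} (gh' : T.R → Option I) (x : I → V) (y : T.R → V) (r : T.R) (w : I)
    (h : gh' r = some w) : TRF_y gh' x y r = x w := by
  unfold TRF_y; rw [h]; rfl

/-- values are unchanged at old ghosts -/
theorem TRF_y_eq {I V : Type} {T : Tr I} (gh gh' : T.R → Option I)
    (hext : ∀ r w, gh r = some w → gh' r = some w) (x : I → V) (y : T.R → V)
    (hy : ∀ r w, gh r = some w → y r = x w) (r : T.R) (h : gh r ≠ none ∨ gh' r = none) :
    TRF_y gh' x y r = y r := by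
  rcases h with h | h
  · obtain ⟨w, hw⟩ := Option.ne_none_iff_exists'.1 h
    rw [TRF_y_some gh' x y r w (hext r w hw), hy r w hw]
  · exact TRF_y_none gh' x y r h

/-- the alternatives are inherited -/
theorem TRF_alt {I : Type} [Fintype I] (T : Tr I) (s : ℕ) {V K : Type} (A : V → V → Prop)
    (lam : Fin 2 → V → V → K) (gh gh' : T.R → Option I) (W : Finset I) (hA : PrE A lam)
    (hGI : GI T s gh' W) (hext : ∀ r w, gh r = some w → gh' r = some w)
    (hnew : ∀ r, gh r = none → gh' r ≠ none → r.1 ∉ W) (x : I → V) (y : T.R → V)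
    (hx : T.hom A x y) (hy : ∀ r w, gh r = some w → y r = x w) (z : I → V)
    (hz : Alt T A lam gh W x y z) :
    Alt T A lam gh' W x (TRF_y gh' x y) z ∧ tkW T lam W (TRF_y gh' x y) z = tkW T lam W y z := by
  have hyW : ∀ r : T.R, r.1 ∈ W → TRF_y gh' x y r = y r := by
    intro r hr
    apply TRF_y_eq gh gh' hext x y hy
    by_contra hcon
    push Not at hcon
    exact hnew r hcon.1 hcon.2 hr
  have hcol : ∀ l e, T.tc W e → T.col lam l z (TRF_y gh' x y) e = T.col lam l z y e := by
    intro l e he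
    rcases e with e | r
    · rfl
    · show lam l (z r.1) (TRF_y gh' x y r) = lam l (z r.1) (y r)
      rw [hyW r he]
  have hcolx : ∀ l e, lve T gh' e → T.col lam l x (TRF_y gh' x y) e = T.col lam l x y e := by
    intro l e he
    rcases e with e | r
    · rfl
    · show lam l (x r.1) (TRF_y gh' x y r) = lam l (x r.1) (y r)
      rw [TRF_y_none gh' x y r he]
  have htk : tkW T lam W (TRF_y gh' x y) z = tkW T lam W y z := by
    unfold tkW
    congr 1
    apply Finset.image_congr
    intro p hp
    rw [Finset.mem_coe, Finset.mem_filter] at hp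
    show (Sum.inr (p.1, T.col lam p.1 z (TRF_y gh' x y) p.2) : Tk V K) = Sum.inr (p.1, T.col lam p.1 z y p.2)
    rw [hcol p.1 p.2 hp.2]
  refine ⟨⟨hz.eq, ⟨hz.hom.1, ?_⟩, hz.inj, ?_, ?_⟩, htk⟩
  · intro r
    by_cases h : gh r ≠ none ∨ gh' r = none
    · rw [TRF_y_eq gh gh' hext x y hy r h]; exact hz.hom.2 r
    · push Not at h
      obtain ⟨w, hw⟩ := Option.ne_none_iff_exists'.1 h.2
      rw [TRF_y_some gh' x y r w hw, hz.eq r.1 (hnew r h.1 h.2)]
      rcases hGI.gv r w hw with h1 | h1
      · exact hx.1 _ _ h1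
      · exact hA.symm _ _ (hx.1 _ _ h1)
  · intro l e e' he he' h
    rw [hcol l e he, hcol l e' he'] at h
    exact hz.cinj l e e' he he' h
  · rw [htk]
    refine Finset.disjoint_of_subset_right ?_ hz.fresh
    intro t ht
    unfold tkF at ht ⊢
    rw [Finset.mem_union] at ht ⊢
    rcases ht with ht | ht
    · left
      rw [Finset.mem_image] at ht ⊢
      obtain ⟨u, -, rfl⟩ := ht
      rcases u with i | r
      · exact ⟨.inl i, Finset.mem_univ _, rfl⟩
      · rcases h : gh' r with _ | w
        · refine ⟨.inr r, Finset.mem_univ _, ?_⟩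
          simp only [Sum.elim_inr]
          rw [TRF_y_none gh' x y r h]
        · refine ⟨.inl w, Finset.mem_univ _, ?_⟩
          simp only [Sum.elim_inr, Sum.elim_inl]
          rw [TRF_y_some gh' x y r w h]
    · right
      rw [Finset.mem_image] at ht ⊢
      obtain ⟨p, hp, rfl⟩ := ht
      rw [Finset.mem_filter] at hp
      refine ⟨p, ?_, ?_⟩
      · rw [Finset.mem_filter]
        refine ⟨Finset.mem_univ _, ?_⟩
        rcases hp2 : p.2 with e | r
        · trivial
        · have h3 : gh' r = none := by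
            have := hp.2
            rw [hp2] at this
            exact this
          show gh r = none
          by_contra h4
          obtain ⟨w, hw⟩ := Option.ne_none_iff_exists'.1 h4
          rw [hext r w hw] at h3
          exact Option.some_ne_none _ h3
      · rw [hcolx p.1 p.2 hp.2]

/-- Nice is inherited -/
theorem TRF_nice {I : Type} {T : Tr I} {V K : Type}
    (lam : Fin 2 → V → V → K) (gh gh' : T.R → Option I)
    (hext : ∀ r w, gh r = some w → gh' r = some w) (x : I → V) (y : T.R → V)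
    (hN : Nice T lam gh x y) : Nice T lam gh' x (TRF_y gh' x y) := by
  have hn : ∀ r, gh' r = none → gh r = none := by
    intro r h3
    by_contra h4
    obtain ⟨w, hw⟩ := Option.ne_none_iff_exists'.1 h4
    rw [hext r w hw] at h3
    exact Option.some_ne_none _ h3
  have hlv : ∀ t, lvv T gh' t → lvv T gh t ∧ Sum.elim x (TRF_y gh' x y) t = Sum.elim x y t := by
    intro t ht
    rcases t with i | r
    · exact ⟨trivial, rfl⟩
    · exact ⟨hn r ht, TRF_y_none gh' x y r ht⟩
  have hle : ∀ l e, lve T gh' e → lve T gh e ∧ T.col lam l x (TRF_y gh' x y) e = T.col lam l x y e := by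
    intro l e he
    rcases e with e | r
    · exact ⟨trivial, rfl⟩
    · refine ⟨hn r he, ?_⟩
      show lam l (x r.1) (TRF_y gh' x y r) = lam l (x r.1) (y r)
      rw [TRF_y_none gh' x y r he]
  refine ⟨?_, ?_⟩
  · intro t t' ht ht' h
    obtain ⟨h1, h2⟩ := hlv t ht
    obtain ⟨h3, h4⟩ := hlv t' ht'
    rw [h2, h4] at h
    exact hN.1 t t' h1 h3 h
  · intro l e e' he he' h
    obtain ⟨h1, h2⟩ := hle l e he
    obtain ⟨h3, h4⟩ := hle l e' he'
    rw [h2, h4] at h
    exact hN.2 l e e' h1 h3 h

/-- the projection -/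
def TRF_p {I V : Type} {T : Tr I} (gh' : T.R → Option I) (f : (I → V) × (T.R → V)) :
    (I → V) × (T.R → V) := (f.1, TRF_y gh' f.1 f.2)

theorem TRF_p_mem {I : Type} [Fintype I] (T : Tr I) (s : ℕ) {V K : Type} [Fintype V] (A : V → V → Prop)
    (lam : Fin 2 → V → V → K) (gh gh' : T.R → Option I) (W : Finset I) (hA : PrE A lam)
    (hGI : GI T s gh' W) (f : (I → V) × (T.R → V))
    (hf : f ∈ Hm T A gh) : TRF_p gh' f ∈ Hm T A gh' := by
  unfold Hm at hf ⊢
  rw [Finset.mem_filter] at hf ⊢
  obtain ⟨-, ⟨h1, h2⟩, h3⟩ := hf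
  refine ⟨Finset.mem_univ _, ⟨h1, ?_⟩, ?_⟩
  · intro r
    rcases h : gh' r with _ | w
    · show A (f.1 r.1) (TRF_y gh' f.1 f.2 r)
      rw [TRF_y_none gh' _ _ r h]; exact h2 r
    · show A (f.1 r.1) (TRF_y gh' f.1 f.2 r)
      rw [TRF_y_some gh' _ _ r w h]
      rcases hGI.gv r w h with h4 | h4
      · exact h1 _ _ h4
      · exact hA.symm _ _ (h1 _ _ h4)
  · intro r w h
    exact TRF_y_some gh' _ _ r w h

/-- fibres of the projection -/
theorem TRF_fib {I : Type} [Fintype I] (T : Tr I) (s : ℕ) {V K : Type} [Fintype V] (A : V → V → Prop)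
    (lam : Fin 2 → V → V → K) (gh gh' : T.R → Option I) (W : Finset I) (hA : PrE A lam)
    (hGI : GI T s gh' W) (hgv : GV T gh) (hext : ∀ r w, gh r = some w → gh' r = some w)
    (f' : (I → V) × (T.R → V)) (hf' : f' ∈ Hm T A gh') :
    ((Hm T A gh).filter fun f => TRF_p gh' f = f').card =
      ∏ r ∈ Finset.univ.filter (fun r : T.R => gh r = none ∧ gh' r ≠ none), deg A (f'.1 r.1) := by
  set S : T.R → Finset V := fun r => if gh r = none ∧ gh' r ≠ none then
    Finset.univ.filter (fun v => A (f'.1 r.1) v) else {f'.2 r} with hS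
  have hf2 := hf'
  unfold Hm at hf2
  rw [Finset.mem_filter] at hf2
  obtain ⟨-, ⟨h1, h2⟩, h3⟩ := hf2
  have hset : ((Hm T A gh).filter fun f => TRF_p gh' f = f') =
      (Fintype.piFinset S).image (fun y => (f'.1, y)) := by
    ext f
    rw [Finset.mem_filter, Finset.mem_image]
    constructor
    · rintro ⟨hf, hp⟩
      unfold Hm at hf
      rw [Finset.mem_filter] at hf
      obtain ⟨-, ⟨g1, g2⟩, g3⟩ := hf
      have e1 : f.1 = f'.1 := by rw [← hp]; rfl
      have e2 : TRF_y gh' f.1 f.2 = f'.2 := by rw [← hp]; rfl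
      refine ⟨f.2, ?_, by rw [← e1]⟩
      rw [Fintype.mem_piFinset]
      intro r
      by_cases h : gh r = none ∧ gh' r ≠ none
      · simp only [hS, h, and_self, if_true, ne_eq, not_false_eq_true]
        rw [Finset.mem_filter]
        exact ⟨Finset.mem_univ _, by rw [← e1]; exact g2 r⟩
      · simp only [hS]
        rw [if_neg h, Finset.mem_singleton, ← e2]
        refine (TRF_y_eq gh gh' hext f.1 f.2 g3 r ?_).symm
        by_contra hcon
        push Not at hcon
        exact h hcon
    · rintro ⟨y, hy, rfl⟩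
      rw [Fintype.mem_piFinset] at hy
      have hyn : ∀ r, ¬ (gh r = none ∧ gh' r ≠ none) → y r = f'.2 r := by
        intro r h
        have := hy r
        simp only [hS] at this
        rw [if_neg h, Finset.mem_singleton] at this
        exact this
      have hyy : ∀ r, gh r = none ∧ gh' r ≠ none → A (f'.1 r.1) (y r) := by
        intro r h
        have := hy r
        simp only [hS] at this
        rw [if_pos h, Finset.mem_filter] at this
        exact this.2
      have hold : ∀ r w, gh r = some w → y r = f'.1 w := by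
        intro r w h
        rw [hyn r (fun hc => by rw [hc.1] at h; exact Option.some_ne_none _ h.symm)]
        exact h3 r w (hext r w h)
      refine ⟨?_, ?_⟩
      · unfold Hm
        rw [Finset.mem_filter]
        refine ⟨Finset.mem_univ _, ⟨h1, ?_⟩, hold⟩
        intro r
        by_cases h : gh r = none ∧ gh' r ≠ none
        · exact hyy r h
        · show A (f'.1 r.1) (y r)
          rw [hyn r h]; exact h2 r
      · show (f'.1, TRF_y gh' f'.1 y) = f'
        have : TRF_y gh' f'.1 y = f'.2 := by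
          funext r
          rcases h : gh' r with _ | w
          · rw [TRF_y_none gh' _ _ r h]
            exact hyn r (fun hc => hc.2 h)
          · rw [TRF_y_some gh' _ _ r w h]
            exact (h3 r w h).symm
        rw [this]
  rw [hset, Finset.card_image_of_injective _ (fun a b h => (Prod.mk.inj h).2), Fintype.card_piFinset]
  rw [Finset.prod_filter]
  apply Finset.prod_congr rfl
  intro r _
  simp only [hS]
  split_ifs with h
  · rfl
  · exact Finset.card_singleton _

theorem TRF : TRF_stmt := by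
  intro I _ T s P V K _ A lam gh gh' W d κ η hA hd hκ hη hlo hhi hgv hGI hext hnew hfr
  refine ⟨hGI, ?_⟩
  set N := Finset.univ.filter (fun r : T.R => gh r = none ∧ gh' r ≠ none) with hN
  set k := N.card with hk
  set Gd := (Hm T A gh).filter fun f => Nice T lam gh f.1 f.2 ∧ Rich T A lam gh W P f.1 f.2 with hGd
  set Gd' := (Hm T A gh').filter fun f => Nice T lam gh' f.1 f.2 ∧ Rich T A lam gh' W P f.1 f.2 with hGd'
  have hd0 : (0 : ℝ) < d := by linarith
  have hκ0 : (0 : ℝ) < κ := by linarith
  have hlow : ∀ f' ∈ Hm T A gh', d ^ k ≤ (((Hm T A gh).filter fun f => TRF_p gh' f = f').card : ℝ) := by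
    intro f' hf'
    rw [TRF_fib T s A lam gh gh' W hA hGI hgv hext f' hf', Nat.cast_prod, hk, ← Finset.prod_const]
    exact Finset.prod_le_prod (fun _ _ => hd0.le) (fun r _ => hlo _)
  have hupp : ∀ f' ∈ Hm T A gh', (((Hm T A gh).filter fun f => TRF_p gh' f = f').card : ℝ) ≤ (κ * d) ^ k := by
    intro f' hf'
    rw [TRF_fib T s A lam gh gh' W hA hGI hgv hext f' hf', Nat.cast_prod, hk, ← Finset.prod_const]
    exact Finset.prod_le_prod (fun _ _ => Nat.cast_nonneg _) (fun r _ => hhi _)
  have c1 : d ^ k * ((Hm T A gh').card : ℝ) ≤ (Hm T A gh).card := by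
    have h := Finset.card_eq_sum_card_fiberwise (s := Hm T A gh) (t := Hm T A gh') (f := TRF_p gh')
      (fun f hf => TRF_p_mem T s A lam gh gh' W hA hGI f hf)
    rw [h, Nat.cast_sum, mul_comm, ← nsmul_eq_mul, ← Finset.sum_const]
    exact Finset.sum_le_sum hlow
  have c2 : (Gd.card : ℝ) ≤ (κ * d) ^ k * Gd'.card := by
    have hmap : ∀ f ∈ Gd, TRF_p gh' f ∈ Gd' := by
      intro f hf
      rw [hGd, Finset.mem_filter] at hf
      rw [hGd', Finset.mem_filter]
      obtain ⟨hf1, hf2, z, hz1, hz2⟩ := hf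
      have hf1' := hf1
      unfold Hm at hf1'
      rw [Finset.mem_filter] at hf1'
      refine ⟨TRF_p_mem T s A lam gh gh' W hA hGI f hf1, TRF_nice lam gh gh' hext _ _ hf2, z, ?_, ?_⟩
      · intro j
        exact (TRF_alt T s A lam gh gh' W hA hGI hext hnew f.1 f.2 hf1'.2.1 hf1'.2.2 (z j) (hz1 j)).1
      · intro j j' hjj
        have e1 := (TRF_alt T s A lam gh gh' W hA hGI hext hnew f.1 f.2 hf1'.2.1 hf1'.2.2 (z j) (hz1 j)).2
        have e2 := (TRF_alt T s A lam gh gh' W hA hGI hext hnew f.1 f.2 hf1'.2.1 hf1'.2.2 (z j') (hz1 j')).2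
        show Disjoint (tkW T lam W (TRF_y gh' f.1 f.2) (z j)) (tkW T lam W (TRF_y gh' f.1 f.2) (z j'))
        rw [e1, e2]
        exact hz2 j j' hjj
    have h := Finset.card_eq_sum_card_fiberwise (s := Gd) (t := Gd') (f := TRF_p gh') hmap
    rw [h, Nat.cast_sum, mul_comm, ← nsmul_eq_mul, ← Finset.sum_const]
    apply Finset.sum_le_sum
    intro f' hf'
    refine le_trans ?_ (hupp f' (Finset.mem_filter.1 hf').1)
    exact_mod_cast Finset.card_le_card (fun f hf => by
      rw [Finset.mem_filter] at hf ⊢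
      exact ⟨(Finset.mem_filter.1 hf.1).1, hf.2⟩)
  have hkc : k ≤ Fintype.card T.R := by rw [hk]; exact Finset.card_le_univ _
  have hdk : (0 : ℝ) < d ^ k := pow_pos hd0 _
  have c3 : η * ((Hm T A gh').card : ℝ) ≤ κ ^ k * Gd'.card := by
    have h1 : η * (d ^ k * ((Hm T A gh').card : ℝ)) ≤ (κ * d) ^ k * Gd'.card :=
      (mul_le_mul_of_nonneg_left c1 hη.le).trans (hfr.trans c2)
    rw [mul_pow] at h1
    have h2 : d ^ k * (η * ((Hm T A gh').card : ℝ)) ≤ d ^ k * (κ ^ k * Gd'.card) := by nlinarith
    exact le_of_mul_le_mul_left h2 hdk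
  have hpow : κ ^ k ≤ κ ^ Fintype.card T.R := pow_le_pow_right₀ hκ hkc
  rw [div_mul_eq_mul_div, div_le_iff₀ (pow_pos hκ0 _)]
  calc η * ((Hm T A gh').card : ℝ) ≤ κ ^ k * Gd'.card := c3
    _ ≤ κ ^ Fintype.card T.R * Gd'.card := mul_le_mul_of_nonneg_right hpow (Nat.cast_nonneg _)
    _ = Gd'.card * κ ^ Fintype.card T.R := mul_comm _ _

end

end Pool.Agent.helper90.IV
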