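import Pool.Agent.helper90.KS.All
import Pool.Agent.helper10.IV.GL4
import Pool.Agent.helper13.IV.ST1
import Pool.Agent.helper15.IV.CB2
import Pool.Agent.helper18.IV.GL3
import Pool.Agent.helper21.IV.HVY
import Pool.Agent.helper27.IV.HLB
import Pool.Agent.helper28.IV.GH2
import Pool.Agent.helper28.IV.LBI
import Pool.Agent.helper31.IV.LC
import Pool.Agent.helper33.IV.MD
import Pool.Agent.helper35.IV.CPY
import Pool.Agent.helper36.IV.CMB
import Pool.Agent.helper36.IV.STP
import Pool.Agent.helper37.IV.HEA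
import Pool.Agent.helper37.IV.STA
import Pool.Agent.helper38.IV.SK
import Pool.Agent.helper4.IV.HV
import Pool.Agent.helper40.IV.EXT
import Pool.Agent.helper41.IV.GL5
import Pool.Agent.helper42.IV.FNY
import Pool.Agent.helper44.IV.EID
import Pool.Agent.helper44.IV.WP
import Pool.Agent.helper46.IV.OP
import Pool.Agent.helper49.IV.TE
import Pool.Agent.helper5.IV.GL1
import Pool.Agent.helper50.IV.LB
import Pool.Agent.helper51.IV.LIT
import Pool.Agent.helper52.IV.EXK
import Pool.Agent.helper54.IV.DR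
import Pool.Agent.helper55.IV.FIB
import Pool.Agent.helper59.IV.NC
import Pool.Agent.helper63.IV.EB
import Pool.Agent.helper67.IV.GH1
import Pool.Agent.helper69.IV.LOC
import Pool.Agent.helper71.IV.GL2
import Pool.Agent.helper72.IV.CB1
import Pool.Agent.helper74.IV.LN
import Pool.Agent.helper76.IV.BN
import Pool.Agent.helper77.IV.GLA
import Pool.Agent.helper79.IV.BL
import Pool.Agent.helper83.IV.PV
import Pool.Agent.helper84.IV.TK2
import Pool.Agent.helper90.IV.NI
import Pool.Agent.helper90.IV.SEL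
import Pool.Agent.helper90.IV.TC
import Pool.Agent.helper90.IV.TRF
import Pool.Agent.helper92.IV.BC
import Pool.Agent.helper94.IV.CHY
import Pool.Agent.helper94.IV.GHO
import Pool.Agent.helper95.IV.NP
import Pool.Agent.helper98.IV.FIN
import Pool.Agent.helper99.IV.DGB
import Pool.Agent.helper99.IV.EN

/-!
MP_26dbae_co: every rational `1 < r ≤ 8/7` is the exponent of `f_2(n, H)` for a bipartite graph `H`: all modules
together.
-/

set_option autoImplicit false

namespace Pool.Agent.IV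

open Pool.Agent.helper23.TH Pool.Agent.KS

theorem all_BN : BN_stmt := Pool.Agent.IV.BN Pool.Agent.helper27.IV.HLB Pool.Agent.helper92.IV.BC Pool.Agent.helper44.IV.EID

theorem all_FIB : FIB_stmt := Pool.Agent.helper55.IV.FIB all_BN

theorem all_NI : NI_stmt := Pool.Agent.helper90.IV.NI Pool.Agent.helper27.IV.HLB Pool.Agent.IV.TE

theorem all_HVY : HVY_stmt := Pool.Agent.helper21.IV.HVY Pool.Agent.helper27.IV.HLB Pool.Agent.IV.TE

theorem all_NC : NC_stmt := Pool.Agent.helper59.IV.NC Pool.Agent.helper27.IV.HLB Pool.Agent.IV.TE Pool.Agent.IV.EB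

theorem all_LOC : LOC_stmt := Pool.Agent.IV.LOC (Pool.Agent.helper79.IV.BL Pool.Agent.helper83.IV.PV) Pool.Agent.helper54.IV.DR (Pool.Agent.helper36.IV.CMB Pool.Agent.helper90.IV.SEL) Pool.Agent.helper99.IV.DGB

theorem all_ST1 : ST1_stmt := Pool.Agent.helper13.IV.ST1 all_LOC all_FIB all_HVY all_NC

theorem all_STP : STP_stmt := Pool.Agent.helper36.IV.STP all_ST1 Pool.Agent.helper94.IV.GHO Pool.Agent.helper90.IV.TRF

theorem all_LIT : LIT_stmt := Pool.Agent.helper51.IV.LIT all_STP (Pool.Agent.helper37.IV.STA all_NI) Pool.Agent.helper99.IV.EN Pool.Agent.helper27.IV.HLB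

theorem all_HV : HV_stmt := Pool.Agent.helper4.IV.HV (Pool.Agent.helper38.IV.SK Pool.Agent.helper44.IV.WP) Pool.Agent.helper94.IV.CHY Pool.Agent.helper35.IV.CPY Pool.Agent.helper42.IV.FNY

theorem all_MD : MD_stmt := Pool.Agent.helper33.IV.MD RG2

theorem all_OP : OP_stmt :=
  Pool.Agent.helper46.IV.OP all_MD Pool.Agent.helper95.IV.NP (Pool.Agent.helper40.IV.EXT (Pool.Agent.helper52.IV.EXK all_HV)) (Pool.Agent.helper37.IV.HEA all_HV) all_LIT Pool.Agent.IV.TC

theorem all_GLA : GLA_stmt := Pool.Agent.helper77.IV.GLA Pool.Agent.helper67.IV.GH1 (Pool.Agent.helper28.IV.GH2 GR NL) Pool.Agent.helper5.IV.GL1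
  Pool.Agent.helper71.IV.GL2 Pool.Agent.helper18.IV.GL3 Pool.Agent.helper10.IV.GL4 Pool.Agent.helper41.IV.GL5 all_OP

theorem all_LBI : LBI_stmt := Pool.Agent.helper28.IV.LBI EC PT TRK all_MD all_GLA Pool.Agent.helper84.IV.TK2

theorem all_FIN : FIN_stmt := Pool.Agent.helper98.IV.FIN all_LBI Pool.Agent.helper74.IV.LN (Pool.Agent.helper50.IV.LB Pool.Agent.helper74.IV.LN) Pool.Agent.helper31.IV.LC Pool.Agent.helper72.IV.CB1 Pool.Agent.helper15.IV.CB2 all_UB MONO ISO

end Pool.Agent.IV
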