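import Pool.Agent.helper90.KS.Defs

/-!
# MP_26dbae_co: all rational exponents `1 < r ≤ 8/7`: definitions

Trees with slots (a slot of an inner vertex `i` is a root which is a leaf at `i`), rainbow copies of
powers, homomorphisms with ghosts, alternatives.
-/

set_option autoImplicit false

open scoped BigOperators

namespace Pool.Agent.IV

open Pool.Agent.helper23.TH Pool.Agent.KS

noncomputable section

open Classical

/-! ### Trees with slots -/

/-- tree on the inner vertices `I` (`par i` is the parent of `i`), the vertex `i` has `ro i` slots -/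
structure Tr (I : Type) where
  par : I → Option I
  rk : I → ℕ
  ro : I → ℕ
  lt : ∀ i j, par i = some j → rk j < rk i
  root : ∃ o, par o = none ∧ ∀ i, par i = none → i = o

variable {I : Type}

/-- adjacency of inner vertices -/
def Tr.nb (T : Tr I) (i j : I) : Prop := T.par i = some j ∨ T.par j = some i

/-- slots; the owner of the slot `r` is `r.1` -/
abbrev Tr.R (T : Tr I) : Type := Σ i : I, Fin (T.ro i)

/-- edges: inner edges `(i, par i)` and slots -/
abbrev Tr.Ed (T : Tr I) : Type := {e : I × I // T.par e.1 = some e.2} ⊕ T.R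

/-- number of slots of `U` and of inner edges inside `U` -/
def Tr.ew [Fintype I] (T : Tr I) (U : Finset I) : ℕ :=
  ∑ i ∈ U, T.ro i + (Finset.univ.filter fun e : I × I => T.par e.1 = some e.2 ∧ e.1 ∈ U ∧ e.2 ∈ U).card

/-- number of neighbours in `W` -/
def Tr.dI (T : Tr I) (W : Finset I) (i : I) : ℕ := (W.filter fun j => T.nb i j).card

/-- number of neighbours outside `W` -/
def Tr.dO [Fintype I] (T : Tr I) (W : Finset I) (i : I) : ℕ :=
  (Finset.univ.filter fun j => j ∉ W ∧ T.nb i j).card

/-- the edge touches `W` -/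
def Tr.tc (T : Tr I) (W : Finset I) : T.Ed → Prop
  | .inl e => e.1.1 ∈ W ∨ e.1.2 ∈ W
  | .inr r => r.1 ∈ W

/-- colour of an edge, `x` values of the inner vertices, `y` values of the slots -/
def Tr.col {V K : Type} (T : Tr I) (lam : Fin 2 → V → V → K) (l : Fin 2) (x : I → V)
    (y : T.R → V) : T.Ed → K
  | .inl e => lam l (x e.1.1) (x e.1.2)
  | .inr r => lam l (x r.1) (y r)

/-- `(x, y)` maps edges to edges -/
def Tr.hom {V : Type} (T : Tr I) (A : V → V → Prop) (x : I → V) (y : T.R → V) : Prop :=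
  (∀ i j, T.par i = some j → A (x i) (x j)) ∧ ∀ r, A (x r.1) (y r)

/-- what the light machine needs from the tree -/
structure TOK [Fintype I] (T : Tr I) (s : ℕ) : Prop where
  ro1 : ∀ i, s - 2 ≤ T.ro i
  s3 : 3 ≤ s
  edge : ∀ i j, T.par i = some j → s ≤ T.ro i + T.ro j
  cap : ∀ W : Finset I, (∀ w ∈ W, T.ro w + T.dO W w + 1 ≤ s) → ∀ u, u ∉ W → T.dI W u ≤ T.ro u

/-! ### Caterpillars -/

/-- inner vertices of the caterpillar with `h + 1` hubs (`inl`), `h` connectors and `pj j` children
of the hub `j` -/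
abbrev CI (h : ℕ) (pj : Fin (h + 1) → ℕ) : Type := Fin (h + 1) ⊕ (Fin h ⊕ (Σ j : Fin (h + 1), Fin (pj j)))

/-- the caterpillar: hubs and connectors have `s - 2` slots, children `s - 1` slots -/
def cat (s h : ℕ) (pj : Fin (h + 1) → ℕ) : Tr (CI h pj) where
  par
    | .inl i => Fin.cases none (fun j => some (.inr (.inl j))) i
    | .inr (.inl j) => some (.inl j.castSucc)
    | .inr (.inr c) => some (.inl c.1)
  rk
    | .inl i => 2 * i.1
    | .inr (.inl j) => 2 * j.1 + 1
    | .inr (.inr c) => 2 * c.1.1 + 1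
  ro
    | .inl _ => s - 2
    | .inr (.inl _) => s - 2
    | .inr (.inr _) => s - 1
  lt := by
    intro i j hij
    rcases i with i | i | i
    · induction i using Fin.cases with
      | zero => simp at hij
      | succ i =>
        simp only [Fin.cases_succ, Option.some.injEq] at hij
        subst hij
        simp only [Fin.val_succ]
        omega
    · simp only [Option.some.injEq] at hij
      subst hij
      simp only [Fin.val_castSucc]
      omega
    · simp only [Option.some.injEq] at hij
      subst hij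
      simp only
      omega
  root := by
    refine ⟨.inl 0, by simp, ?_⟩
    intro i hi
    rcases i with i | i | i
    · induction i using Fin.cases with
      | zero => rfl
      | succ i => simp at hi
    · simp at hi
    · simp at hi

/-- is the vertex a hub -/
def chub {h : ℕ} {pj : Fin (h + 1) → ℕ} : CI h pj → Bool
  | .inl _ => true
  | .inr _ => false

/-! ### Coloured graphs -/

/-- `A` is a graph and `lam 0`, `lam 1` are proper edge colourings of `A` -/
structure PrE {V K : Type} (A : V → V → Prop) (lam : Fin 2 → V → V → K) : Prop where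
  symm : ∀ a b, A a b → A b a
  irr : ∀ a, ¬ A a a
  csymm : ∀ l a b, A a b → lam l a b = lam l b a
  prop : ∀ l a b b', A a b → A a b' → lam l a b = lam l a b' → b = b'

/-- rainbow copy of the power `T^q` (`q` copies of the inner part, the slots are the roots) -/
def RB {V K : Type} (T : Tr I) (A : V → V → Prop) (lam : Fin 2 → V → V → K) (q : ℕ) : Prop :=
  ∃ (z : Fin q → I → V) (y : T.R → V), (∀ j, T.hom A (z j) y) ∧
    (∀ j i j' i', z j i = z j' i' → j = j' ∧ i = i') ∧ Function.Injective y ∧ (∀ j i r, z j i ≠ y r) ∧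
    ∀ l j e j' e', T.col lam l (z j) y e = T.col lam l (z j') y e' → j = j' ∧ e = e'

/-- number of common neighbours of a tuple -/
def cn {V α : Type} [Fintype V] (A : V → V → Prop) (a : α → V) : ℕ :=
  (Finset.univ.filter fun v => ∀ k, A v (a k)).card

/-- number of heavy `s`-stars -/
def hst {V : Type} [Fintype V] (A : V → V → Prop) (Ch s : ℕ) : ℕ :=
  ∑ z, (Finset.univ.filter fun a : Fin s → V => (∀ k, A z (a k)) ∧ Ch ≤ cn A a).card

/-- number of neighbours of `x` in `Y` -/
def degY {V : Type} (A : V → V → Prop) (Y : Finset V) (x : V) : ℕ := (Y.filter fun v => A x v).card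

/-! ### Homomorphisms with ghosts -/

/-- homomorphisms; `gh r = some w` means that the slot `r` has the same value as the inner vertex `w` -/
def Hm [Fintype I] {V : Type} [Fintype V] (T : Tr I) (A : V → V → Prop) (gh : T.R → Option I) :
    Finset ((I → V) × (T.R → V)) :=
  Finset.univ.filter fun f => T.hom A f.1 f.2 ∧ ∀ r w, gh r = some w → f.2 r = f.1 w

/-- number of live slots (not a ghost) -/
def nl [Fintype I] (T : Tr I) (gh : T.R → Option I) : ℕ := (Finset.univ.filter fun r => gh r = none).card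

/-- a ghost is a copy of a neighbour of its owner -/
def GV (T : Tr I) (gh : T.R → Option I) : Prop := ∀ r w, gh r = some w → T.nb r.1 w

/-- live vertices -/
def lvv (T : Tr I) (gh : T.R → Option I) : I ⊕ T.R → Prop
  | .inl _ => True
  | .inr r => gh r = none

/-- live edges -/
def lve (T : Tr I) (gh : T.R → Option I) : T.Ed → Prop
  | .inl _ => True
  | .inr r => gh r = none

/-- live neighbours of the inner vertex `u` -/
def lnb (T : Tr I) (gh : T.R → Option I) (u : I) : I ⊕ T.R → Prop
  | .inl j => T.nb u j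
  | .inr r => gh r = none ∧ r.1 = u

/-- ghost invariants for the set `W` -/
structure GI [Fintype I] (T : Tr I) (s : ℕ) (gh : T.R → Option I) (W : Finset I) : Prop where
  gv : GV T gh
  mem : ∀ r w, gh r = some w → w ∈ W
  once : ∀ r r' w, gh r = some w → gh r' = some w → r = r'
  all : ∀ u, u ∉ W → ∀ w ∈ W, T.nb u w → ∃ r, r.1 = u ∧ gh r = some w
  deg : ∀ w ∈ W, T.ro w + T.dO W w + 1 ≤ s

/-- different values at live vertices, different colours of live edges -/
def Nice {V K : Type} (T : Tr I) (lam : Fin 2 → V → V → K) (gh : T.R → Option I)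
    (x : I → V) (y : T.R → V) : Prop :=
  (∀ t t', lvv T gh t → lvv T gh t' → Sum.elim x y t = Sum.elim x y t' → t = t') ∧
  ∀ l e e', lve T gh e → lve T gh e' → T.col lam l x y e = T.col lam l x y e' → e = e'

/-- no heavy tuple of live neighbours -/
def NH {V : Type} [Fintype V] (T : Tr I) (A : V → V → Prop) (s Ch : ℕ) (gh : T.R → Option I)
    (x : I → V) (y : T.R → V) : Prop :=
  ∀ (u : I) (a : Fin s → I ⊕ T.R), Function.Injective a → (∀ k, lnb T gh u (a k)) →
    cn A (fun k => Sum.elim x y (a k)) < Ch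

/-- the edges `(a, b)` with the colour of the edge `(x i, x j)`, different from it, which could replace it -/
def CFs {V K : Type} [Fintype V] (T : Tr I) (A : V → V → Prop) (lam : Fin 2 → V → V → K)
    (x : I → V) (y : T.R → V) (l : Fin 2) (i j : I) : Finset (V × V) :=
  Finset.univ.filter fun p => A p.1 p.2 ∧ p.1 ≠ x i ∧ p.2 ≠ x j ∧
    lam l p.1 p.2 = lam l (x i) (x j) ∧ (∀ r : T.R, r.1 = i → A p.1 (y r)) ∧ ∀ r : T.R, r.1 = j → A p.2 (y r)

/-- fewer than `P` such edges, for all inner edges outside `W` -/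
def NCF {V K : Type} [Fintype V] (T : Tr I) (A : V → V → Prop) (lam : Fin 2 → V → V → K)
    (P : ℕ) (W : Finset I) (x : I → V) (y : T.R → V) : Prop :=
  ∀ l i j, T.par i = some j → i ∉ W → j ∉ W → (CFs T A lam x y l i j).card < P

/-! ### Tokens: vertices and colours -/

/-- tokens -/
abbrev Tk (V K : Type) : Type := V ⊕ (Fin 2 × K)

/-- values on `W` and colours of the edges touching `W` -/
def tkW [Fintype I] {V K : Type} (T : Tr I) (lam : Fin 2 → V → V → K) (W : Finset I) (y : T.R → V)
    (x : I → V) : Finset (Tk V K) :=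
  (W.image fun i => (Sum.inl (x i) : Tk V K)) ∪
    ((Finset.univ.filter fun p : Fin 2 × T.Ed => T.tc W p.2).image fun p =>
      (Sum.inr (p.1, T.col lam p.1 x y p.2) : Tk V K))

/-- the same with live edges only -/
def tkL [Fintype I] {V K : Type} (T : Tr I) (lam : Fin 2 → V → V → K) (gh : T.R → Option I) (W : Finset I)
    (y : T.R → V) (x : I → V) : Finset (Tk V K) :=
  (W.image fun i => (Sum.inl (x i) : Tk V K)) ∪
    ((Finset.univ.filter fun p : Fin 2 × T.Ed => T.tc W p.2 ∧ lve T gh p.2).image fun p =>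
      (Sum.inr (p.1, T.col lam p.1 x y p.2) : Tk V K))

/-- all values and all colours of live edges -/
def tkF [Fintype I] {V K : Type} (T : Tr I) (lam : Fin 2 → V → V → K) (gh : T.R → Option I)
    (y : T.R → V) (x : I → V) : Finset (Tk V K) :=
  (Finset.univ.image fun t : I ⊕ T.R => (Sum.inl (Sum.elim x y t) : Tk V K)) ∪
    ((Finset.univ.filter fun p : Fin 2 × T.Ed => lve T gh p.2).image fun p =>
      (Sum.inr (p.1, T.col lam p.1 x y p.2) : Tk V K))

/-- `z` is an alternative for `x` on `W` -/
structure Alt [Fintype I] {V K : Type} (T : Tr I) (A : V → V → Prop) (lam : Fin 2 → V → V → K)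
    (gh : T.R → Option I) (W : Finset I) (x : I → V) (y : T.R → V) (z : I → V) : Prop where
  eq : ∀ i, i ∉ W → z i = x i
  hom : T.hom A z y
  inj : ∀ w ∈ W, ∀ w' ∈ W, z w = z w' → w = w'
  cinj : ∀ l e e', T.tc W e → T.tc W e' → T.col lam l z y e = T.col lam l z y e' → e = e'
  fresh : Disjoint (tkW T lam W y z) (tkF T lam gh y x)

/-- `P` alternatives on `W` without common tokens -/
def Rich [Fintype I] {V K : Type} (T : Tr I) (A : V → V → Prop) (lam : Fin 2 → V → V → K)
    (gh : T.R → Option I) (W : Finset I) (P : ℕ) (x : I → V) (y : T.R → V) : Prop :=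
  ∃ z : Fin P → I → V, (∀ j, Alt T A lam gh W x y (z j)) ∧
    ∀ j j', j ≠ j' → Disjoint (tkW T lam W y (z j)) (tkW T lam W y (z j'))

/-- `P` elements of `F` have pairwise disjoint tokens on the complement of `B` -/
def Pk [Fintype I] {V K : Type} (T : Tr I) (lam : Fin 2 → V → V → K) (gh : T.R → Option I)
    (B : Finset I) (y : T.R → V) (P : ℕ) (F : Finset (I → V)) : Prop :=
  ∃ a : Fin P → I → V, (∀ j, a j ∈ F) ∧
    ∀ j j', j ≠ j' → Disjoint (tkL T lam gh Bᶜ y (a j)) (tkL T lam gh Bᶜ y (a j'))

/-! ### The environment of the light machine -/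

/-- standing assumptions: `d`, `κ d` bounds for the degrees, `KE` constant of EXT, `ε` fraction of heavy
stars, `K` large -/
structure Env [Fintype I] {V K : Type} [Fintype V] (T : Tr I) (s Ch : ℕ) (A : V → V → Prop)
    (lam : Fin 2 → V → V → K) (d κ KE ε K₀ : ℝ) : Prop where
  pr : PrE A lam
  pos : 0 < Fintype.card V
  d1 : 1 ≤ d
  k1 : 1 ≤ κ
  lo : ∀ v, d ≤ deg A v
  hi : ∀ v, (deg A v : ℝ) ≤ κ * d
  ext : ∀ w, ∑ w' ∈ Finset.univ.erase w, (cd A w w' : ℝ) ^ s ≤ KE * d ^ s
  h1 : ∀ U : Finset I, U.Nonempty →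
    K₀ * (Fintype.card V : ℝ) ^ T.ew U ≤ (Fintype.card V : ℝ) ^ U.card * d ^ T.ew U
  h3 : K₀ * (Fintype.card V : ℝ) ≤ d ^ 2
  lt : (hst A Ch s : ℝ) ≤ ε * Fintype.card V * d ^ s

/-- the state of the light machine -/
def State [Fintype I] {V K : Type} [Fintype V] (T : Tr I) (s : ℕ) (A : V → V → Prop)
    (lam : Fin 2 → V → V → K) (W : Finset I) (gh : T.R → Option I) (P : ℕ) (η : ℝ) : Prop :=
  GI T s gh W ∧ η * (Hm T A gh).card ≤
    ((Hm T A gh).filter fun f => Nice T lam gh f.1 f.2 ∧ Rich T A lam gh W P f.1 f.2).card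

/-! ### The pair graph -/

/-- linked 1-subdivision of `T^q` without collisions: `z j i` inner vertices, `y r` roots, `c j e` middles of the
edges, `m true` is joined to the hubs, `m false` to the other inner vertices -/
def LSub {V X : Type} (T : Tr I) (hub : I → Bool) (A : V → V → Prop) (p q : V → X) (k : ℕ) : Prop :=
  ∃ (z : Fin k → I → V) (y : T.R → V) (c : Fin k → T.Ed → V) (m : Bool → V),
    (∀ j (e : {e : I × I // T.par e.1 = some e.2}),
      A (z j e.1.1) (c j (.inl e)) ∧ A (z j e.1.2) (c j (.inl e))) ∧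
    (∀ j (r : T.R), A (z j r.1) (c j (.inr r)) ∧ A (y r) (c j (.inr r))) ∧
    (∀ j i, A (m (hub i)) (z j i)) ∧
    ∀ s t : ((Fin k × I) ⊕ T.R) ⊕ ((Fin k × T.Ed) ⊕ Bool), s ≠ t →
      ¬ Co p q
        (Sum.elim (Sum.elim (fun a => z a.1 a.2) y) (Sum.elim (fun a => c a.1 a.2) m) s)
        (Sum.elim (Sum.elim (fun a => z a.1 a.2) y) (Sum.elim (fun a => c a.1 a.2) m) t)

/-- number of heavy 2-walks `(b, a, b')`: `b ≠ b'` and at least `C` common neighbours -/
def hw2 {V : Type} [Fintype V] (A : V → V → Prop) (C : ℕ) : ℕ :=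
  ∑ a, (Finset.univ.filter fun p : V × V => A a p.1 ∧ A a p.2 ∧ p.1 ≠ p.2 ∧ C ≤ cd A p.1 p.2).card

/-! ### The graph H -/

/-- a rooted graph given by finite types -/
def mkR {ρ ι ε : Type} [Fintype ρ] [Fintype ι] [Fintype ε] (ed : ε → (ρ ⊕ ι) × (ρ ⊕ ι))
    (hi : Function.Injective fun e => s((ed e).1, (ed e).2)) (hl : ∀ e, (ed e).1 ≠ (ed e).2) : Rooted where
  r := Fintype.card ρ
  v := Fintype.card ι
  e := Fintype.card ε
  ed k := (Sum.map (Fintype.equivFin ρ) (Fintype.equivFin ι) (ed ((Fintype.equivFin ε).symm k)).1,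
    Sum.map (Fintype.equivFin ρ) (Fintype.equivFin ι) (ed ((Fintype.equivFin ε).symm k)).2)
  inj := by
    intro a b h
    have hm : Function.Injective (Sum.map (Fintype.equivFin ρ) (Fintype.equivFin ι)) :=
      Sum.map_injective.2 ⟨(Fintype.equivFin ρ).injective, (Fintype.equivFin ι).injective⟩
    have h2 : s((ed ((Fintype.equivFin ε).symm a)).1, (ed ((Fintype.equivFin ε).symm a)).2) =
        s((ed ((Fintype.equivFin ε).symm b)).1, (ed ((Fintype.equivFin ε).symm b)).2) := by
      simp only [Sym2.eq_iff] at h ⊢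
      rcases h with ⟨h, h'⟩ | ⟨h, h'⟩
      · exact Or.inl ⟨hm h, hm h'⟩
      · exact Or.inr ⟨hm h, hm h'⟩
    exact (Fintype.equivFin ε).symm.injective (hi h2)
  loopless := by
    intro a h
    have hm : Function.Injective (Sum.map (Fintype.equivFin ρ) (Fintype.equivFin ι)) :=
      Sum.map_injective.2 ⟨(Fintype.equivFin ρ).injective, (Fintype.equivFin ι).injective⟩
    exact hl _ (hm h)

/-- edges of the linked subdivision: the two halves of the edges of `T`, and the links of the inner vertices.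
Roots: slots (`inl`) and the two link roots (`inr`). Inner vertices: those of `T` (`inl`) and the middles. -/
def lsEd (T : Tr I) (hub : I → Bool) :
    (T.Ed ⊕ T.Ed) ⊕ I → ((T.R ⊕ Bool) ⊕ (I ⊕ T.Ed)) × ((T.R ⊕ Bool) ⊕ (I ⊕ T.Ed))
  | .inl (.inl (.inl e)) => (.inr (.inl e.1.1), .inr (.inr (.inl e)))
  | .inl (.inl (.inr r)) => (.inr (.inl r.1), .inr (.inr (.inr r)))
  | .inl (.inr (.inl e)) => (.inr (.inl e.1.2), .inr (.inr (.inl e)))
  | .inl (.inr (.inr r)) => (.inl (.inl r), .inr (.inr (.inr r)))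
  | .inr i => (.inl (.inr (hub i)), .inr (.inl i))

theorem lsEd_inj (T : Tr I) (hub : I → Bool) :
    Function.Injective fun e => s((lsEd T hub e).1, (lsEd T hub e).2) := by
  rintro (((e | r) | (e | r)) | i) (((e' | r') | (e' | r')) | i') h <;>
    simp only [lsEd, Sym2.eq_iff, Sum.inr.injEq, Sum.inl.injEq, reduceCtorEq, false_and, and_false, or_false,
      false_or] at h
  · rw [h.2]
  · exfalso
    obtain ⟨h1, h2⟩ := h
    subst h2
    have := T.lt _ _ e.2
    rw [h1] at this
    exact lt_irrefl _ this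
  · rw [h.2]
  · exfalso
    obtain ⟨h1, h2⟩ := h
    subst h2
    have := T.lt _ _ e.2
    rw [← h1] at this
    exact lt_irrefl _ this
  · rw [h.2]
  · rw [h.2]
  · rw [h.2]

theorem lsEd_ll (T : Tr I) (hub : I → Bool) : ∀ e, (lsEd T hub e).1 ≠ (lsEd T hub e).2 := by
  rintro (((e | r) | (e | r)) | i) h <;> simp [lsEd] at h

/-- the linked 1-subdivision of `T` as a rooted graph -/
def LS [Fintype I] (T : Tr I) (hub : I → Bool) : Rooted :=
  mkR (lsEd T hub) (lsEd_inj T hub) (lsEd_ll T hub)

end

end Pool.Agent.IV
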